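import Mathlib

set_option autoImplicit false

/-!
Sections of the elliptic surface `a x³ + b y³ + c z³ = 0`, where `a = (T+1)³ - 1`,
`b = T³ - (T+1)³`, `c = 1 - T³`.
-/

namespace Pool.Agent.X323.ES

open Polynomial

noncomputable def pa : ℤ[X] := (X + 1) ^ 3 - 1
noncomputable def pb : ℤ[X] := X ^ 3 - (X + 1) ^ 3
noncomputable def pc : ℤ[X] := 1 - X ^ 3

lemma pa_deg : pa.natDegree ≤ 3 := by unfold pa; compute_degree
lemma pb_deg : pb.natDegree ≤ 3 := by unfold pb; compute_degree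
lemma pc_deg : pc.natDegree ≤ 3 := by unfold pc; compute_degree

@[simp] lemma pa_one : pa.eval 1 = 7 := by simp [pa]
@[simp] lemma pb_one : pb.eval 1 = -7 := by simp [pb]
@[simp] lemma pc_one : pc.eval 1 = 0 := by simp [pc]
@[simp] lemma pa_zero : pa.eval 0 = 0 := by simp [pa]
@[simp] lemma pb_zero : pb.eval 0 = -1 := by simp [pb]
@[simp] lemma pc_zero : pc.eval 0 = 1 := by simp [pc]

/-- a section of degree at most `n` with given values above `T = 1` and `T = 0` -/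
structure Sec (k l : ℤ) (n : ℕ) (x y z : ℤ[X]) : Prop where
  eq : pa * x ^ 3 + pb * y ^ 3 + pc * z ^ 3 = 0
  dx : x.natDegree ≤ n
  dy : y.natDegree ≤ n
  dz : z.natDegree ≤ n
  e1 : x.eval 1 = y.eval 1
  e2 : z.eval 1 = (1 - 3 * k + l) * y.eval 1
  e3 : y.eval 1 ≠ 0
  e4 : z.eval 0 = y.eval 0
  e5 : x.eval 0 = (1 - 3 * k - l) * y.eval 0
  e6 : y.eval 0 ≠ 0

lemma Sec.mono {k l : ℤ} {n m : ℕ} {x y z : ℤ[X]} (h : Sec k l n x y z) (hm : n ≤ m) :
    Sec k l m x y z :=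
  ⟨h.eq, h.dx.trans hm, h.dy.trans hm, h.dz.trans hm, h.e1, h.e2, h.e3, h.e4, h.e5, h.e6⟩

lemma sec_zero : Sec 0 0 0 1 1 1 := by
  refine ⟨?_, ?_, ?_, ?_, ?_, ?_, ?_, ?_, ?_, ?_⟩
  · unfold pa pb pc; ring
  all_goals simp

lemma sec_one : Sec 0 1 1 X 1 (X + 1) := by
  refine ⟨?_, ?_, ?_, ?_, ?_, ?_, ?_, ?_, ?_, ?_⟩
  · unfold pa pb pc; ring
  · exact natDegree_X_le
  · simp
  · compute_degree
  all_goals simp

lemma Sec.comp {k l k' l' : ℤ} {n : ℕ} {x1 y1 z1 x2 y2 z2 : ℤ[X]} (h1 : Sec k l n x1 y1 z1)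
    (h2 : Sec k' l' n x2 y2 z2) (hne : 3 * (k - k') ≠ l - l') (hne' : 3 * (k - k') ≠ -(l - l')) :
    Sec (1 - k - k') (-l - l') (4 * n) (x1 ^ 2 * y2 * z2 - x2 ^ 2 * y1 * z1)
      (y1 ^ 2 * x2 * z2 - y2 ^ 2 * x1 * z1) (z1 ^ 2 * x2 * y2 - z2 ^ 2 * x1 * y1) := by
  have hd : ∀ u v w u' v' w' : ℤ[X], u.natDegree ≤ n → v.natDegree ≤ n → w.natDegree ≤ n →
      u'.natDegree ≤ n → v'.natDegree ≤ n → w'.natDegree ≤ n →
      (u ^ 2 * v * w - u' ^ 2 * v' * w').natDegree ≤ 4 * n := by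
    intro u v w u' v' w' hu hv hw hu' hv' hw'
    refine (natDegree_sub_le _ _).trans (max_le ?_ ?_)
    · refine natDegree_mul_le.trans ?_
      have h1 : (u ^ 2 * v).natDegree ≤ 2 * n + n :=
        natDegree_mul_le.trans (add_le_add (natDegree_pow_le.trans (by omega)) hv)
      omega
    · refine natDegree_mul_le.trans ?_
      have h1 : (u' ^ 2 * v').natDegree ≤ 2 * n + n :=
        natDegree_mul_le.trans (add_le_add (natDegree_pow_le.trans (by omega)) hv')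
      omega
  have a1 := h1.e1
  have a2 := h1.e2
  have a3 := h1.e3
  have a4 := h1.e4
  have a5 := h1.e5
  have a6 := h1.e6
  have b1 := h2.e1
  have b2 := h2.e2
  have b3 := h2.e3
  have b4 := h2.e4
  have b5 := h2.e5
  have b6 := h2.e6
  refine ⟨?_, hd _ _ _ _ _ _ h1.dx h2.dy h2.dz h2.dx h1.dy h1.dz,
    hd _ _ _ _ _ _ h1.dy h2.dx h2.dz h2.dy h1.dx h1.dz,
    hd _ _ _ _ _ _ h1.dz h2.dx h2.dy h2.dz h1.dx h1.dy, ?_, ?_, ?_, ?_, ?_, ?_⟩
  · have e1 := h1.eq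
    have e2 := h2.eq
    linear_combination (x1 ^ 3 * y2 ^ 3 * z2 ^ 3 + y1 ^ 3 * x2 ^ 3 * z2 ^ 3 +
      z1 ^ 3 * x2 ^ 3 * y2 ^ 3 - 3 * (x1 * x2 * y1 * y2 * z1 * z2) * (x2 * y2 * z2)) * e1 -
      (x2 ^ 3 * y1 ^ 3 * z1 ^ 3 + y2 ^ 3 * x1 ^ 3 * z1 ^ 3 +
      z2 ^ 3 * x1 ^ 3 * y1 ^ 3 - 3 * (x1 * x2 * y1 * y2 * z1 * z2) * (x1 * y1 * z1)) * e2
  · simp only [eval_sub, eval_mul, eval_pow]
    rw [a1, b1]
  · simp only [eval_sub, eval_mul, eval_pow]
    rw [a1, b1, a2, b2]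
    ring
  · simp only [eval_sub, eval_mul, eval_pow]
    rw [a1, b1, a2, b2]
    have h : (y1.eval 1) ^ 2 * (y2.eval 1) * ((1 - 3 * k' + l') * y2.eval 1) -
        (y2.eval 1) ^ 2 * (y1.eval 1) * ((1 - 3 * k + l) * y1.eval 1) =
        (y1.eval 1) ^ 2 * (y2.eval 1) ^ 2 * (3 * (k - k') - (l - l')) := by ring
    rw [h]
    exact mul_ne_zero (mul_ne_zero (pow_ne_zero 2 a3) (pow_ne_zero 2 b3)) (sub_ne_zero.2 hne)
  · simp only [eval_sub, eval_mul, eval_pow]
    rw [a4, b4]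
  · simp only [eval_sub, eval_mul, eval_pow]
    rw [a4, b4, a5, b5]
    ring
  · simp only [eval_sub, eval_mul, eval_pow]
    rw [a4, b4, a5, b5]
    have h : (y1.eval 0) ^ 2 * ((1 - 3 * k' - l') * y2.eval 0) * (y2.eval 0) -
        (y2.eval 0) ^ 2 * ((1 - 3 * k - l) * y1.eval 0) * (y1.eval 0) =
        (y1.eval 0) ^ 2 * (y2.eval 0) ^ 2 * (3 * (k - k') - -(l - l')) := by ring
    rw [h]
    exact mul_ne_zero (mul_ne_zero (pow_ne_zero 2 a6) (pow_ne_zero 2 b6)) (sub_ne_zero.2 hne')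

lemma Sec.tan {k l : ℤ} {n : ℕ} {x y z : ℤ[X]} (h : Sec k l n x y z) :
    Sec (1 - 2 * k) (-2 * l) (4 * n + 3) (x * (pb * y ^ 3 - pc * z ^ 3))
      (y * (pc * z ^ 3 - pa * x ^ 3)) (z * (pa * x ^ 3 - pb * y ^ 3)) := by
  have hd : ∀ (u v w p q : ℤ[X]), u.natDegree ≤ n → v.natDegree ≤ n → w.natDegree ≤ n →
      p.natDegree ≤ 3 → q.natDegree ≤ 3 →
      (u * (p * v ^ 3 - q * w ^ 3)).natDegree ≤ 4 * n + 3 := by
    intro u v w p q hu hv hw hp hq
    refine natDegree_mul_le.trans ?_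
    have h1 : (p * v ^ 3 - q * w ^ 3).natDegree ≤ 3 * n + 3 := by
      refine (natDegree_sub_le _ _).trans (max_le ?_ ?_)
      · refine natDegree_mul_le.trans ?_
        have := natDegree_pow_le (p := v) (n := 3)
        omega
      · refine natDegree_mul_le.trans ?_
        have := natDegree_pow_le (p := w) (n := 3)
        omega
    omega
  have a1 := h.e1
  have a2 := h.e2
  have a3 := h.e3
  have a4 := h.e4
  have a5 := h.e5
  have a6 := h.e6
  refine ⟨?_, hd _ _ _ _ _ h.dx h.dy h.dz pb_deg pc_deg,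
    hd _ _ _ _ _ h.dy h.dz h.dx pc_deg pa_deg, hd _ _ _ _ _ h.dz h.dx h.dy pa_deg pb_deg,
    ?_, ?_, ?_, ?_, ?_, ?_⟩
  · have e := h.eq
    linear_combination ((pa * x ^ 3 - pb * y ^ 3) * (pb * y ^ 3 - pc * z ^ 3) *
      (pc * z ^ 3 - pa * x ^ 3)) * e
  · simp only [eval_sub, eval_mul, eval_pow, pa_one, pb_one, pc_one]
    rw [a1]
    ring
  · simp only [eval_sub, eval_mul, eval_pow, pa_one, pb_one, pc_one]
    rw [a1, a2]
    ring
  · simp only [eval_sub, eval_mul, eval_pow, pa_one, pc_one]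
    rw [a1]
    have h : (y.eval 1) * (0 * z.eval 1 ^ 3 - 7 * y.eval 1 ^ 3) = -7 * (y.eval 1) ^ 4 := by ring
    rw [h]
    exact mul_ne_zero (by norm_num) (pow_ne_zero 4 a3)
  · simp only [eval_sub, eval_mul, eval_pow, pa_zero, pb_zero, pc_zero]
    rw [a4]
    ring
  · simp only [eval_sub, eval_mul, eval_pow, pa_zero, pb_zero, pc_zero]
    rw [a4, a5]
    ring
  · simp only [eval_sub, eval_mul, eval_pow, pa_zero, pc_zero]
    rw [a4]
    have h : (y.eval 0) * (1 * y.eval 0 ^ 3 - 0 * x.eval 0 ^ 3) = (y.eval 0) ^ 4 := by ring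
    rw [h]
    exact pow_ne_zero 4 a6

/-- there is a section of degree at most `n` with the index `(k, l)` -/
def Has (k l : ℤ) (n : ℕ) : Prop := ∃ x y z : ℤ[X], Sec k l n x y z

lemma Has.mono {k l : ℤ} {n m : ℕ} (h : Has k l n) (hm : n ≤ m) : Has k l m := by
  obtain ⟨x, y, z, h⟩ := h
  exact ⟨x, y, z, h.mono hm⟩

lemma Has.comp {k l k' l' : ℤ} {n : ℕ} (h : Has k l n) (h' : Has k' l' n)
    (hne : 3 * (k - k') ≠ l - l') (hne' : 3 * (k - k') ≠ -(l - l')) :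
    Has (1 - k - k') (-l - l') (4 * n) := by
  obtain ⟨x, y, z, h⟩ := h
  obtain ⟨x', y', z', h'⟩ := h'
  exact ⟨_, _, _, h.comp h' hne hne'⟩

lemma Has.tan {k l : ℤ} {n : ℕ} (h : Has k l n) : Has (1 - 2 * k) (-2 * l) (4 * n + 3) := by
  obtain ⟨x, y, z, h⟩ := h
  exact ⟨_, _, _, h.tan⟩

lemma step {M : ℤ} {n : ℕ} (h : ∀ k l : ℤ, |k| ≤ 1 + M → |l| ≤ 1 + M → Has k l n) (k l : ℤ)
    (hk : |k| ≤ 1 + 2 * M) (hl : |l| ≤ 1 + 2 * M) : Has k l (4 * n + 3) := by
  rw [abs_le] at hk hl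
  obtain ⟨k1, k2, hk12, hk3, hk1, hk2⟩ : ∃ k1 k2 : ℤ, k = 1 - k1 - k2 ∧ (k1 = k2 ∨ k2 = k1 + 1) ∧
      |k1| ≤ 1 + M ∧ |k2| ≤ 1 + M :=
    ⟨(1 - k) / 2, 1 - k - (1 - k) / 2, by omega, by omega, by rw [abs_le]; omega,
      by rw [abs_le]; omega⟩
  obtain ⟨l1, l2, hl12, hl3, hl1, hl2⟩ : ∃ l1 l2 : ℤ, l = -l1 - l2 ∧ (l1 = l2 ∨ l2 = l1 + 1) ∧
      |l1| ≤ 1 + M ∧ |l2| ≤ 1 + M :=
    ⟨(-l) / 2, -l - (-l) / 2, by omega, by omega, by rw [abs_le]; omega,
      by rw [abs_le]; omega⟩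
  have h1 := h k1 l1 hk1 hl1
  have h2 := h k2 l2 hk2 hl2
  by_cases he : k1 = k2 ∧ l1 = l2
  · have h3 := h1.tan
    obtain ⟨rfl, rfl⟩ := he
    have e1 : k = 1 - 2 * k1 := by omega
    have e2 : l = -2 * l1 := by omega
    rw [e1, e2]
    exact h3
  · have h3 := h1.comp h2 (by omega) (by omega)
    rw [hk12, hl12]
    exact h3.mono (by omega)

lemma base : ∃ n : ℕ, ∀ k l : ℤ, |k| ≤ 1 + 1 → |l| ≤ 1 + 1 → Has k l n := by
  have cmp : ∀ {k l k' l' : ℤ}, (∃ n, Has k l n) → (∃ n, Has k' l' n) →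
      3 * (k - k') ≠ l - l' → 3 * (k - k') ≠ -(l - l') → ∃ n, Has (1 - k - k') (-l - l') n := by
    rintro k l k' l' ⟨n, hn⟩ ⟨m, hm⟩ h1 h2
    exact ⟨_, (hn.mono (le_max_left n m)).comp (hm.mono (le_max_right n m)) h1 h2⟩
  have tn : ∀ {k l : ℤ}, (∃ n, Has k l n) → ∃ n, Has (1 - 2 * k) (-2 * l) n := by
    rintro k l ⟨n, hn⟩
    exact ⟨_, hn.tan⟩
  have p00 : ∃ n, Has 0 0 n := ⟨0, 1, 1, 1, sec_zero⟩
  have p01 : ∃ n, Has 0 1 n := ⟨1, X, 1, X + 1, sec_one⟩
  have p10 : ∃ n, Has 1 0 n := by simpa using tn p00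
  have p1m1 : ∃ n, Has 1 (-1) n := by simpa using cmp p00 p01 (by norm_num) (by norm_num)
  have p1m2 : ∃ n, Has 1 (-2) n := by simpa using tn p01
  have p02 : ∃ n, Has 0 2 n := by simpa using cmp p00 p1m2 (by norm_num) (by norm_num)
  have p0m1 : ∃ n, Has 0 (-1) n := by simpa using cmp p01 p10 (by norm_num) (by norm_num)
  have pm10 : ∃ n, Has (-1) 0 n := by
    have := tn p10
    norm_num at this
    exact this
  have pm11 : ∃ n, Has (-1) 1 n := by
    have := cmp p10 p1m1 (by norm_num) (by norm_num)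
    norm_num at this
    exact this
  have pm12 : ∃ n, Has (-1) 2 n := by
    have := cmp p10 p1m2 (by norm_num) (by norm_num)
    norm_num at this
    exact this
  have p11 : ∃ n, Has 1 1 n := by
    have := cmp p00 p0m1 (by norm_num) (by norm_num)
    norm_num at this
    exact this
  have p20 : ∃ n, Has 2 0 n := by
    have := cmp p00 pm10 (by norm_num) (by norm_num)
    norm_num at this
    exact this
  have p2m1 : ∃ n, Has 2 (-1) n := by
    have := cmp p00 pm11 (by norm_num) (by norm_num)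
    norm_num at this
    exact this
  have p2m2 : ∃ n, Has 2 (-2) n := by
    have := cmp p00 pm12 (by norm_num) (by norm_num)
    norm_num at this
    exact this
  have p0m2 : ∃ n, Has 0 (-2) n := by
    have := cmp p10 p02 (by norm_num) (by norm_num)
    norm_num at this
    exact this
  have p12 : ∃ n, Has 1 2 n := by
    have := cmp p1m2 pm10 (by norm_num) (by norm_num)
    norm_num at this
    exact this
  have p21 : ∃ n, Has 2 1 n := by
    have := cmp p0m1 pm10 (by norm_num) (by norm_num)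
    norm_num at this
    exact this
  have p30 : ∃ n, Has 3 0 n := by
    have := tn pm10
    norm_num at this
    exact this
  have p3m1 : ∃ n, Has 3 (-1) n := by
    have := cmp pm10 pm11 (by norm_num) (by norm_num)
    norm_num at this
    exact this
  have p3m2 : ∃ n, Has 3 (-2) n := by
    have := cmp pm10 pm12 (by norm_num) (by norm_num)
    norm_num at this
    exact this
  have pm1m1 : ∃ n, Has (-1) (-1) n := by
    have := cmp p00 p21 (by norm_num) (by norm_num)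
    norm_num at this
    exact this
  have pm20 : ∃ n, Has (-2) 0 n := by
    have := cmp p00 p30 (by norm_num) (by norm_num)
    norm_num at this
    exact this
  have pm21 : ∃ n, Has (-2) 1 n := by
    have := cmp p00 p3m1 (by norm_num) (by norm_num)
    norm_num at this
    exact this
  have pm22 : ∃ n, Has (-2) 2 n := by
    have := cmp p00 p3m2 (by norm_num) (by norm_num)
    norm_num at this
    exact this
  have pm1m2 : ∃ n, Has (-1) (-2) n := by
    have := cmp p01 p21 (by norm_num) (by norm_num)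
    norm_num at this
    exact this
  have pm2m1 : ∃ n, Has (-2) (-1) n := by
    have := cmp p01 p30 (by norm_num) (by norm_num)
    norm_num at this
    exact this
  have pm2m2 : ∃ n, Has (-2) (-2) n := by
    have := cmp p02 p30 (by norm_num) (by norm_num)
    norm_num at this
    exact this
  have p22 : ∃ n, Has 2 2 n := by
    have := cmp pm10 p0m2 (by norm_num) (by norm_num)
    norm_num at this
    exact this
  have key : ∀ k ∈ Finset.Icc (-2 : ℤ) 2, ∀ l ∈ Finset.Icc (-2 : ℤ) 2, ∃ n, Has k l n := by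
    intro k hk l hl
    rw [Finset.mem_Icc] at hk hl
    obtain ⟨hk1, hk2⟩ := hk
    obtain ⟨hl1, hl2⟩ := hl
    interval_cases k <;> interval_cases l <;> assumption
  choose! f hf using key
  refine ⟨∑ k ∈ Finset.Icc (-2 : ℤ) 2, ∑ l ∈ Finset.Icc (-2 : ℤ) 2, f k l, fun k l hk hl => ?_⟩
  rw [abs_le] at hk hl
  have hk' : k ∈ Finset.Icc (-2 : ℤ) 2 := by rw [Finset.mem_Icc]; omega
  have hl' : l ∈ Finset.Icc (-2 : ℤ) 2 := by rw [Finset.mem_Icc]; omega
  refine (hf k hk' l hl').mono ?_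
  exact (Finset.single_le_sum (f := fun l => f k l) (fun _ _ => Nat.zero_le _) hl').trans
    (Finset.single_le_sum (f := fun k => ∑ l ∈ Finset.Icc (-2 : ℤ) 2, f k l)
      (fun _ _ => Nat.zero_le _) hk')

/-- For every `j` there are sections with all indices `(k, l)`, `|k|, |l| ≤ 1 + 2 ^ j`, of degree less
than `D 4 ^ j`. -/
theorem growth : ∃ D : ℕ, 0 < D ∧ ∀ (j : ℕ) (k l : ℤ), |k| ≤ 1 + 2 ^ j → |l| ≤ 1 + 2 ^ j →
    Has k l (D * 4 ^ j - 1) := by
  obtain ⟨n, hn⟩ := base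
  refine ⟨n + 1, Nat.succ_pos _, fun j => ?_⟩
  induction j with
  | zero =>
    intro k l hk hl
    simpa using hn k l (by simpa using hk) (by simpa using hl)
  | succ j ih =>
    intro k l hk hl
    have h := step (M := 2 ^ j) ih k l (by rw [pow_succ] at hk; linarith)
      (by rw [pow_succ] at hl; linarith)
    refine h.mono ?_
    have h1 : 0 < (n + 1) * 4 ^ j := by positivity
    have h2 : (n + 1) * 4 ^ (j + 1) = 4 * ((n + 1) * 4 ^ j) := by rw [pow_succ]; ring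
    omega

end Pool.Agent.X323.ES
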