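import Mathlib
import Pool.Agent.X323.ES1

set_option autoImplicit false

/-!
Specialisation: Vojta's inequality forces the exceptional set to contain the sections of small degree.
-/

namespace Pool.Agent.X323.ES

open Polynomial

/-- `max |v_i|` -/
def ht (v : Fin 3 → ℤ) : ℕ := Finset.univ.sup fun i => (v i).natAbs

lemma abs_eval_le (x : ℤ[X]) (n : ℕ) (hn : x.natDegree ≤ n) (p : ℕ) (hp : 1 ≤ p) :
    (x.eval (p : ℤ)).natAbs ≤ (∑ i ∈ Finset.range (n + 1), (x.coeff i).natAbs) * p ^ n := by
  rw [Polynomial.eval_eq_sum_range' (Nat.lt_succ_of_le hn), Finset.sum_mul]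
  refine (Int.natAbs_sum_le _ _).trans (Finset.sum_le_sum fun i hi => ?_)
  rw [Int.natAbs_mul, Int.natAbs_pow, Int.natAbs_natCast]
  refine Nat.mul_le_mul_left _ (Nat.pow_le_pow_right hp ?_)
  rw [Finset.mem_range] at hi
  omega

lemma eval₂_smul {R K : Type*} [CommRing R] [CommRing K] (φ : R →+* K) {σ : Type*}
    (G : MvPolynomial σ R) (g : ℕ) (hG : G.IsHomogeneous g) (c : K) (v : σ → K) :
    MvPolynomial.eval₂ φ (fun i => c * v i) G = c ^ g * MvPolynomial.eval₂ φ v G := by
  rw [MvPolynomial.eval₂_eq, MvPolynomial.eval₂_eq, Finset.mul_sum]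
  refine Finset.sum_congr rfl fun m hm => ?_
  have h1 : ∑ i ∈ m.support, m i = g := by
    have := hG (MvPolynomial.mem_support_iff.1 hm)
    rw [Finsupp.weight_apply, Finsupp.sum] at this
    simpa using this
  rw [← h1, ← Finset.prod_pow_eq_pow_sum]
  simp only [mul_pow, Finset.prod_mul_distrib]
  ring

/-- Vojta's inequality with `ε (n + 1) < 1` off `G = 0` implies that `G` vanishes on every section of
degree at most `n`. -/
theorem vanish {k l : ℤ} {n : ℕ} {x y z : ℤ[X]} (h : Sec k l n x y z)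
    (G : MvPolynomial (Fin 3) ℤ[X]) (g : ℕ) (hG : G.IsHomogeneous g) (ε C : ℝ) (hε : 0 ≤ ε)
    (hn : ε * (n + 1) < 1)
    (hV : ∀ (p : ℕ) (v : Fin 3 → ℤ), 1 ≤ p → Finset.univ.gcd v = 1 →
      pa.eval (p : ℤ) * v 0 ^ 3 + pb.eval (p : ℤ) * v 1 ^ 3 + pc.eval (p : ℤ) * v 2 ^ 3 = 0 →
      MvPolynomial.eval₂ (evalRingHom (p : ℤ)) v G ≠ 0 →
      Real.log p ≤ ε * (Real.log p + Real.log (ht v)) + C) :
    MvPolynomial.eval ![x, y, z] G = 0 := by
  classical
  set Q := MvPolynomial.eval ![x, y, z] G with hQ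
  set K : ℕ := (∑ i ∈ Finset.range (n + 1), (x.coeff i).natAbs) +
    (∑ i ∈ Finset.range (n + 1), (y.coeff i).natAbs) +
    (∑ i ∈ Finset.range (n + 1), (z.coeff i).natAbs) + 1 with hK
  have hy0 : y ≠ 0 := by
    rintro rfl
    exact h.e3 (by simp)
  -- all sufficiently large integers are zeros of `Q` or of `y`
  obtain ⟨B, hB⟩ : ∃ B : ℕ, ∀ p : ℕ, B ≤ p →
      ε * Real.log K + C < (1 - ε * (n + 1)) * Real.log p := by
    have h1 : Filter.Tendsto (fun p : ℕ => (1 - ε * (n + 1)) * Real.log (p : ℝ)) Filter.atTop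
        Filter.atTop :=
      Filter.Tendsto.const_mul_atTop (by linarith)
        (Real.tendsto_log_atTop.comp tendsto_natCast_atTop_atTop)
    exact Filter.eventually_atTop.1 (h1.eventually_gt_atTop (ε * Real.log K + C))
  have key : ∀ p : ℕ, B ≤ p → 1 ≤ p → Q.eval (p : ℤ) = 0 ∨ y.eval (p : ℤ) = 0 := by
    intro p hp hp1
    by_contra hcon
    rw [not_or] at hcon
    obtain ⟨hQp, hyp⟩ := hcon
    set v0 : Fin 3 → ℤ := ![x.eval (p : ℤ), y.eval (p : ℤ), z.eval (p : ℤ)] with hv0
    have hv0ne : ∃ i ∈ (Finset.univ : Finset (Fin 3)), v0 i ≠ 0 := ⟨1, Finset.mem_univ _, hyp⟩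
    obtain ⟨v, hv, hv1⟩ := Finset.extract_gcd v0 (Finset.univ_nonempty)
    set d := Finset.univ.gcd v0 with hd
    have hd0 : d ≠ 0 := by
      intro h0
      rw [hd, Finset.gcd_eq_zero_iff] at h0
      exact hyp (h0 1 (Finset.mem_univ _))
    have hQv : Q.eval (p : ℤ) = MvPolynomial.eval₂ (evalRingHom (p : ℤ)) v0 G := by
      rw [hQ]
      have h1 : (evalRingHom (p : ℤ)) (MvPolynomial.eval ![x, y, z] G) =
          MvPolynomial.eval₂ ((evalRingHom (p : ℤ)).comp (RingHom.id _))
            (evalRingHom (p : ℤ) ∘ ![x, y, z]) G := by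
        rw [MvPolynomial.eval, MvPolynomial.coe_eval₂Hom]
        exact MvPolynomial.eval₂_comp_left _ _ _ _
      rw [coe_evalRingHom] at h1
      rw [h1]
      congr 1
      funext i
      fin_cases i <;> rfl
    have hvv : v0 = fun i => d * v i := by
      funext i
      exact hv i (Finset.mem_univ _)
    rw [hvv, eval₂_smul _ G g hG] at hQv
    have hGv : MvPolynomial.eval₂ (evalRingHom (p : ℤ)) v G ≠ 0 := by
      intro h0
      rw [h0, mul_zero] at hQv
      exact hQp hQv
    have heq : pa.eval (p : ℤ) * v 0 ^ 3 + pb.eval (p : ℤ) * v 1 ^ 3 +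
        pc.eval (p : ℤ) * v 2 ^ 3 = 0 := by
      have h1 := congrArg (fun q => q.eval (p : ℤ)) h.eq
      simp only [eval_add, eval_mul, eval_pow, eval_zero] at h1
      have h2 : x.eval (p : ℤ) = d * v 0 := hv 0 (Finset.mem_univ _)
      have h3 : y.eval (p : ℤ) = d * v 1 := hv 1 (Finset.mem_univ _)
      have h4 : z.eval (p : ℤ) = d * v 2 := hv 2 (Finset.mem_univ _)
      rw [h2, h3, h4] at h1
      have h5 : d ^ 3 * (pa.eval (p : ℤ) * v 0 ^ 3 + pb.eval (p : ℤ) * v 1 ^ 3 +
        pc.eval (p : ℤ) * v 2 ^ 3) = 0 := by rw [← h1]; ring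
      exact (mul_eq_zero.1 h5).resolve_left (pow_ne_zero 3 hd0)
    have hineq := hV p v hp1 hv1 heq hGv
    -- the height of `v`
    have hp0 : (0 : ℝ) < p := by exact_mod_cast hp1
    have hvh : ht v ≤ K * p ^ n := by
      refine Finset.sup_le fun i _ => ?_
      have h1 : (v i).natAbs ≤ (v0 i).natAbs := by
        rw [hvv]
        simp only [Int.natAbs_mul]
        exact Nat.le_mul_of_pos_left _ (Int.natAbs_pos.2 hd0)
      refine h1.trans ?_
      have hx := abs_eval_le x n h.dx p hp1
      have hy := abs_eval_le y n h.dy p hp1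
      have hz := abs_eval_le z n h.dz p hp1
      fin_cases i
      · refine hx.trans (Nat.mul_le_mul_right _ ?_)
        omega
      · refine hy.trans (Nat.mul_le_mul_right _ ?_)
        omega
      · refine hz.trans (Nat.mul_le_mul_right _ ?_)
        omega
    have hv1' : 0 < ht v := by
      rw [Nat.pos_iff_ne_zero]
      intro h0
      have h1 : v 1 = 0 := by
        have : (v 1).natAbs ≤ ht v := Finset.le_sup (f := fun i => (v i).natAbs) (Finset.mem_univ 1)
        omega
      have h2 : y.eval (p : ℤ) = d * v 1 := hv 1 (Finset.mem_univ _)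
      rw [h1, mul_zero] at h2
      exact hyp h2
    have hlog : Real.log (ht v) ≤ Real.log K + n * Real.log p := by
      have hK0 : (0 : ℝ) < K := by
        have : 0 < K := by omega
        exact_mod_cast this
      rw [← Real.log_pow, ← Real.log_mul hK0.ne' (pow_ne_zero _ hp0.ne')]
      refine Real.log_le_log (by exact_mod_cast hv1') ?_
      exact_mod_cast hvh
    have hB' := hB p hp
    have h6 : ε * Real.log (ht v) ≤ ε * (Real.log K + n * Real.log p) :=
      mul_le_mul_of_nonneg_left hlog hε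
    nlinarith
  -- conclusion
  have hprod : Q * y = 0 := by
    by_contra hne
    have hfin : {t : ℤ | (Q * y).IsRoot t}.Finite := Polynomial.finite_setOfPred_isRoot hne
    have hinf : {t : ℤ | (Q * y).IsRoot t}.Infinite := by
      refine Set.infinite_of_injective_forall_mem (f := fun m : ℕ => ((B + 1 + m : ℕ) : ℤ)) ?_ ?_
      · intro a b hab
        simp only [Nat.cast_inj] at hab
        omega
      · intro m
        simp only [Set.mem_ofPred_eq, IsRoot.def, eval_mul]
        rcases key (B + 1 + m) (by omega) (by omega) with h1 | h1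
        · rw [h1, zero_mul]
        · rw [h1, mul_zero]
    exact hinf hfin
  exact (mul_eq_zero.1 hprod).resolve_right hy0

end Pool.Agent.X323.ES
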