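import Mathlib
import Pool.Agent.X323.ES2

set_option autoImplicit false

/-!
The number of sections in a surface `G = 0` which does not contain the elliptic surface.
-/

namespace Pool.Agent.X323.ES

open Polynomial

/-- the factor `T² + 3 T + 3` of `a` -/
noncomputable def pq : ℤ[X] := X ^ 2 + 3 * X + 3

lemma pa_eq : pa = X * pq := by unfold pa pq; ring

lemma pq_ne_dvd_pc : ¬ pq ∣ pc := by
  rintro ⟨q, hq⟩
  have h := congrArg (fun r => r.eval 0) hq
  simp [pq, pc] at h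
  omega

lemma X_ne_dvd_pc : ¬ (X : ℤ[X]) ∣ pc := by
  rw [X_dvd_iff, coeff_zero_eq_eval_zero, pc_zero]
  norm_num

lemma X_ne_dvd_pq : ¬ (X : ℤ[X]) ∣ pq := by
  rw [X_dvd_iff, coeff_zero_eq_eval_zero]
  simp [pq]

lemma pq_prime : Prime pq := by
  have hdeg : pq.natDegree = 2 := by unfold pq; compute_degree!
  have hmon : pq.Monic := by
    unfold pq
    monicity!
  refine Irreducible.prime ?_
  rw [Polynomial.Monic.irreducible_iff_roots_eq_zero_of_degree_le_three hmon (by omega) (by omega)]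
  rw [Multiset.eq_zero_iff_forall_notMem]
  intro t ht
  have h1 : pq.eval t = 0 := (mem_roots'.1 ht).2
  have h2 : t ^ 2 + 3 * t + 3 = 0 := by
    simpa [pq] using h1
  nlinarith [sq_nonneg (2 * t + 3)]

/-- `w = -(b Y³ + c)` -/
noncomputable def w : ℤ[X][X] := -(C pb * X ^ 3 + C pc)

lemma w_coeff : w.coeff 0 = -pc := by
  simp [w, coeff_X_pow]

lemma w_deg : w.natDegree ≤ 3 := by
  unfold w
  rw [natDegree_neg]
  compute_degree

lemma C_dvd_w {q : ℤ[X]} (hq : ¬ q ∣ pc) : ¬ C q ∣ w := by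
  intro h
  rw [C_dvd_iff_dvd_coeff] at h
  have := h 0
  rw [w_coeff, dvd_neg] at this
  exact hq this

/-- the defining polynomial of the surface -/
noncomputable def f : ℤ[X][X][X] := C (C pa) * X ^ 3 - C w

lemma CC_dvd_f {q : ℤ[X]} (hq : ¬ q ∣ pc) : ¬ C (C q) ∣ f := by
  intro h
  rw [C_dvd_iff_dvd_coeff] at h
  have := h 0
  have h2 : f.coeff 0 = -w := by simp [f, coeff_X_pow]
  rw [h2] at this
  obtain ⟨r, hr⟩ := this
  exact C_dvd_w hq ⟨-r, by linear_combination -hr⟩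

lemma f_dvd_of {P : ℤ[X][X][X]} {g : ℕ} (h : f ∣ C (C pa) ^ g * P) : f ∣ P := by
  obtain ⟨Q, hQ⟩ := h
  have hX : Prime (C (C (X : ℤ[X])) : ℤ[X][X][X]) := by
    rw [prime_C_iff, prime_C_iff]
    exact prime_X
  have hq : Prime (C (C pq) : ℤ[X][X][X]) := by
    rw [prime_C_iff, prime_C_iff]
    exact pq_prime
  have hpa : (C (C pa) : ℤ[X][X][X]) ^ g = C (C X) ^ g * C (C pq) ^ g := by
    rw [pa_eq, C_mul, C_mul]
    ring
  rw [hpa, mul_assoc] at hQ
  have h1 : C (C (X : ℤ[X])) ^ g ∣ f * Q := ⟨_, hQ.symm⟩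
  obtain ⟨Q1, rfl⟩ := hX.pow_dvd_of_dvd_mul_left g (CC_dvd_f X_ne_dvd_pc) h1
  have h2 : C (C pq) ^ g * P = f * Q1 := by
    have h3 : (C (C (X : ℤ[X])) ^ g : ℤ[X][X][X]) ≠ 0 := pow_ne_zero _ hX.ne_zero
    refine mul_left_cancel₀ h3 ?_
    rw [hQ]
    ring
  have h4 : C (C pq) ^ g ∣ f * Q1 := ⟨_, h2.symm⟩
  obtain ⟨Q2, rfl⟩ := hq.pow_dvd_of_dvd_mul_left g (CC_dvd_f pq_ne_dvd_pc) h4
  refine ⟨Q2, ?_⟩
  have h3 : (C (C pq) ^ g : ℤ[X][X][X]) ≠ 0 := pow_ne_zero _ hq.ne_zero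
  refine mul_left_cancel₀ h3 ?_
  rw [h2]
  ring

/-- the norm form -/
noncomputable def N (r0 r1 r2 : ℤ[X][X]) : ℤ[X][X] :=
  C pa ^ 2 * r0 ^ 3 + C pa * w * r1 ^ 3 + w ^ 2 * r2 ^ 3 - 3 * C pa * w * r0 * r1 * r2

lemma N_step (r0 r1 r2 : ℤ[X][X]) (h : N r0 r1 r2 = 0) :
    ∃ s0 s1 s2, r0 = C X * s0 ∧ r1 = C X * s1 ∧ r2 = C X * s2 ∧ N s0 s1 s2 = 0 := by
  have hX : Prime (C (X : ℤ[X]) : ℤ[X][X]) := by
    rw [prime_C_iff]
    exact prime_X
  have hw : ¬ C (X : ℤ[X]) ∣ w := C_dvd_w X_ne_dvd_pc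
  have hq : ¬ C (X : ℤ[X]) ∣ C pq := by
    rw [C_dvd_iff_dvd_coeff]
    intro h
    have := h 0
    rw [coeff_C_zero] at this
    exact X_ne_dvd_pq this
  have hpa : (C pa : ℤ[X][X]) = C X * C pq := by rw [pa_eq, C_mul]
  unfold N at h
  rw [hpa] at h
  have hX0 := hX.ne_zero
  -- first step
  have h1 : C (X : ℤ[X]) ∣ w ^ 2 * r2 ^ 3 := by
    refine ⟨-(C X * C pq ^ 2 * r0 ^ 3 + C pq * w * r1 ^ 3 - 3 * C pq * w * r0 * r1 * r2), ?_⟩
    linear_combination h
  have h2 : C (X : ℤ[X]) ∣ r2 := by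
    rcases hX.dvd_or_dvd h1 with h3 | h3
    · exact absurd (hX.dvd_of_dvd_pow h3) hw
    · exact hX.dvd_of_dvd_pow h3
  obtain ⟨s2, rfl⟩ := h2
  have h3 : C X * C pq ^ 2 * r0 ^ 3 + C pq * w * r1 ^ 3 + C X ^ 2 * w ^ 2 * s2 ^ 3 -
      3 * C X * C pq * w * r0 * r1 * s2 = 0 := by
    refine mul_left_cancel₀ hX0 ?_
    rw [mul_zero, ← h]
    ring
  have h4 : C (X : ℤ[X]) ∣ (C pq * w) * r1 ^ 3 := by
    refine ⟨-(C pq ^ 2 * r0 ^ 3 + C X * w ^ 2 * s2 ^ 3 - 3 * C pq * w * r0 * r1 * s2), ?_⟩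
    linear_combination h3
  have h5 : C (X : ℤ[X]) ∣ r1 := by
    rcases hX.dvd_or_dvd h4 with h6 | h6
    · rcases hX.dvd_or_dvd h6 with h7 | h7
      · exact absurd h7 hq
      · exact absurd h7 hw
    · exact hX.dvd_of_dvd_pow h6
  obtain ⟨s1, rfl⟩ := h5
  have h6 : C pq ^ 2 * r0 ^ 3 + C X ^ 2 * C pq * w * s1 ^ 3 + C X * w ^ 2 * s2 ^ 3 -
      3 * C X * C pq * w * r0 * s1 * s2 = 0 := by
    refine mul_left_cancel₀ hX0 ?_
    rw [mul_zero, ← h3]
    ring
  have h7 : C (X : ℤ[X]) ∣ C pq ^ 2 * r0 ^ 3 := by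
    refine ⟨-(C X * C pq * w * s1 ^ 3 + w ^ 2 * s2 ^ 3 - 3 * C pq * w * r0 * s1 * s2), ?_⟩
    linear_combination h6
  have h8 : C (X : ℤ[X]) ∣ r0 := by
    rcases hX.dvd_or_dvd h7 with h9 | h9
    · exact absurd (hX.dvd_of_dvd_pow h9) hq
    · exact hX.dvd_of_dvd_pow h9
  obtain ⟨s0, rfl⟩ := h8
  refine ⟨s0, s1, s2, rfl, rfl, rfl, ?_⟩
  unfold N
  rw [hpa]
  refine mul_left_cancel₀ hX0 ?_
  rw [mul_zero, ← h6]
  ring

lemma eq_zero_of_pow_dvd (r : ℤ[X][X]) (h : ∀ n : ℕ, C (X : ℤ[X]) ^ n ∣ r) : r = 0 := by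
  by_contra hr
  obtain ⟨j, hj⟩ : ∃ j, r.coeff j ≠ 0 := by
    by_contra hc
    push Not at hc
    exact hr (Polynomial.ext (by simpa using hc))
  have h1 := h ((r.coeff j).natDegree + 1)
  rw [← C_pow, C_dvd_iff_dvd_coeff] at h1
  have h2 := Polynomial.natDegree_le_of_dvd (h1 j) hj
  rw [natDegree_X_pow] at h2
  omega

lemma N_ne (r0 r1 r2 : ℤ[X][X]) (h : N r0 r1 r2 = 0) : r0 = 0 ∧ r1 = 0 ∧ r2 = 0 := by
  have key : ∀ n : ℕ, ∀ r0 r1 r2 : ℤ[X][X], N r0 r1 r2 = 0 →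
      C (X : ℤ[X]) ^ n ∣ r0 ∧ C (X : ℤ[X]) ^ n ∣ r1 ∧ C (X : ℤ[X]) ^ n ∣ r2 := by
    intro n
    induction n with
    | zero => intro r0 r1 r2 _; simp
    | succ n ih =>
      intro r0 r1 r2 h
      obtain ⟨s0, s1, s2, rfl, rfl, rfl, hs⟩ := N_step r0 r1 r2 h
      obtain ⟨h0, h1, h2⟩ := ih s0 s1 s2 hs
      rw [pow_succ']
      exact ⟨mul_dvd_mul_left _ h0, mul_dvd_mul_left _ h1, mul_dvd_mul_left _ h2⟩
  exact ⟨eq_zero_of_pow_dvd _ fun n => (key n _ _ _ h).1,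
    eq_zero_of_pow_dvd _ fun n => (key n _ _ _ h).2.1,
    eq_zero_of_pow_dvd _ fun n => (key n _ _ _ h).2.2⟩

lemma sum_three {M : Type*} [AddCommMonoid M] (F : ℕ → M) (g : ℕ) :
    ∑ j ∈ Finset.range (3 * (g + 1)), F j =
      ∑ q ∈ Finset.range (g + 1), (F (3 * q) + F (3 * q + 1) + F (3 * q + 2)) := by
  induction g with
  | zero => simp [Finset.sum_range_succ]
  | succ g ih =>
    rw [show 3 * (g + 1 + 1) = 3 * (g + 1) + 1 + 1 + 1 by ring, Finset.sum_range_succ,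
      Finset.sum_range_succ, Finset.sum_range_succ, ih, Finset.sum_range_succ _ (g + 1)]
    simp only [add_assoc]

/-- the affine equation of `G` -/
noncomputable def aff (G : MvPolynomial (Fin 3) ℤ[X]) : ℤ[X][X][X] :=
  MvPolynomial.eval₂ (C.comp C) ![X, C X, 1] G

lemma aff_eval {K : Type*} [CommRing K] (φ : ℤ[X] →+* K) (ξ η : K)
    (G : MvPolynomial (Fin 3) ℤ[X]) :
    eval₂ (eval₂RingHom φ η) ξ (aff G) = MvPolynomial.eval₂ φ ![ξ, η, 1] G := by
  have h1 : (eval₂RingHom (eval₂RingHom φ η) ξ).comp (MvPolynomial.eval₂Hom (C.comp C)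
      ![X, C X, 1]) = MvPolynomial.eval₂Hom φ ![ξ, η, 1] := by
    refine MvPolynomial.ringHom_ext (fun r => ?_) (fun i => ?_)
    · simp
    · fin_cases i <;> simp
  exact congrArg (fun ψ => ψ G) h1

lemma aff_deg (G : MvPolynomial (Fin 3) ℤ[X]) (g : ℕ) (hG : G.IsHomogeneous g) :
    (aff G).natDegree ≤ g ∧ ∀ j, ((aff G).coeff j).natDegree + j ≤ g ∨ (aff G).coeff j = 0 := by
  have h0 : aff G = ∑ m ∈ G.support, C (C (G.coeff m)) * (X ^ m 0 * (C X) ^ m 1) := by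
    unfold aff
    rw [MvPolynomial.eval₂_eq']
    refine Finset.sum_congr rfl fun m _ => ?_
    rw [Fin.prod_univ_three]
    simp
  have hm : ∀ m ∈ G.support, m 0 + m 1 + m 2 = g := by
    intro m hm
    have := hG (MvPolynomial.mem_support_iff.1 hm)
    rw [Finsupp.weight_apply, Finsupp.sum_fintype _ _ (by simp), Fin.sum_univ_three] at this
    simpa using this
  have hdeg : (aff G).natDegree ≤ g := by
    rw [h0]
    refine natDegree_sum_le_of_forall_le _ _ fun m hmm => ?_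
    have h1 := hm m hmm
    refine (natDegree_C_mul_le _ _).trans ?_
    refine natDegree_mul_le.trans ?_
    rw [natDegree_X_pow, ← C_pow, natDegree_C]
    omega
  refine ⟨hdeg, fun j => ?_⟩
  by_cases hj : g < j
  · right
    exact coeff_eq_zero_of_natDegree_lt (by omega)
  · left
    have h1 : ((aff G).coeff j).natDegree ≤ g - j := by
      rw [h0, finsetSum_coeff]
      refine natDegree_sum_le_of_forall_le _ _ fun m hmm => ?_
      have h2 := hm m hmm
      rw [coeff_C_mul, ← C_pow, coeff_mul_C, coeff_X_pow]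
      split_ifs with h3
      · rw [one_mul]
        refine (natDegree_C_mul_le _ _).trans ?_
        rw [natDegree_X_pow]
        omega
      · simp
    omega

/-- the remainder coefficients -/
noncomputable def rem (P : ℤ[X][X][X]) (g i : ℕ) : ℤ[X][X] :=
  ∑ q ∈ Finset.range (g + 1), C pa ^ (g - q) * w ^ q * P.coeff (3 * q + i)

lemma rem_deg (G : MvPolynomial (Fin 3) ℤ[X]) (g : ℕ) (hG : G.IsHomogeneous g) (i : ℕ) :
    (rem (aff G) g i).natDegree ≤ g := by
  unfold rem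
  refine natDegree_sum_le_of_forall_le _ _ fun q _ => ?_
  rcases (aff_deg G g hG).2 (3 * q + i) with h | h
  · refine natDegree_mul_le.trans ?_
    have h1 : (C pa ^ (g - q) * w ^ q).natDegree ≤ 3 * q := by
      refine natDegree_mul_le.trans ?_
      rw [← C_pow, natDegree_C]
      have h2 := natDegree_pow_le (p := w) (n := q)
      have h3 := w_deg
      nlinarith
    omega
  · rw [h, mul_zero, natDegree_zero]
    exact Nat.zero_le _

lemma rem_eval {K : Type*} [CommRing K] (φ : ℤ[X] →+* K) (ξ η : K) (P : ℤ[X][X][X]) (g : ℕ)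
    (hP : P.natDegree ≤ g) (hξ : φ pa * ξ ^ 3 = eval₂ φ η w) :
    eval₂ φ η (rem P g 0) + ξ * eval₂ φ η (rem P g 1) + ξ ^ 2 * eval₂ φ η (rem P g 2) =
      φ pa ^ g * eval₂ (eval₂RingHom φ η) ξ P := by
  have h1 : eval₂ (eval₂RingHom φ η) ξ P =
      ∑ j ∈ Finset.range (3 * (g + 1)), eval₂ φ η (P.coeff j) * ξ ^ j := by
    rw [eval₂_eq_sum_range' _ (show P.natDegree < 3 * (g + 1) by omega)]
    rfl
  have h2 : ∀ i, eval₂ φ η (rem P g i) = ∑ q ∈ Finset.range (g + 1),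
      φ pa ^ (g - q) * (φ pa * ξ ^ 3) ^ q * eval₂ φ η (P.coeff (3 * q + i)) := by
    intro i
    unfold rem
    rw [eval₂_finsetSum]
    refine Finset.sum_congr rfl fun q _ => ?_
    rw [eval₂_mul, eval₂_mul, eval₂_pow, eval₂_pow, eval₂_C, hξ]
  rw [h1, sum_three, h2, h2, h2, Finset.mul_sum, Finset.mul_sum, Finset.mul_sum,
    ← Finset.sum_add_distrib, ← Finset.sum_add_distrib]
  refine Finset.sum_congr rfl fun q hq => ?_
  rw [Finset.mem_range] at hq
  have h3 : φ pa ^ g = φ pa ^ (g - q) * φ pa ^ q := by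
    rw [← pow_add]
    congr 1
    omega
  rw [h3, add_zero]
  ring

/-- the polynomial which vanishes at `y / z` for all sections in `G = 0` -/
noncomputable def nrm (G : MvPolynomial (Fin 3) ℤ[X]) (g : ℕ) : ℤ[X][X] :=
  N (rem (aff G) g 0) (rem (aff G) g 1) (rem (aff G) g 2)

lemma nrm_deg (G : MvPolynomial (Fin 3) ℤ[X]) (g : ℕ) (hG : G.IsHomogeneous g) :
    (nrm G g).natDegree ≤ 3 * g + 6 := by
  have hr := rem_deg G g hG
  have hw := w_deg
  unfold nrm N
  have c1 : ∀ r : ℤ[X][X], r.natDegree ≤ g → (r ^ 3).natDegree ≤ 3 * g := by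
    intro r hr
    exact natDegree_pow_le.trans (by omega)
  have hC : ∀ r : ℤ[X][X], ∀ a : ℤ[X], (C a * r).natDegree ≤ r.natDegree := fun r a =>
    natDegree_C_mul_le _ _
  refine (natDegree_sub_le _ _).trans (max_le ((natDegree_add_le _ _).trans (max_le
    ((natDegree_add_le _ _).trans (max_le ?_ ?_)) ?_)) ?_)
  · rw [← C_pow]
    refine (hC _ _).trans ((c1 _ (hr 0)).trans (by omega))
  · rw [mul_assoc]
    refine (hC _ _).trans (natDegree_mul_le.trans ?_)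
    have := c1 _ (hr 1)
    omega
  · refine natDegree_mul_le.trans ?_
    have := c1 _ (hr 2)
    have h2 := natDegree_pow_le (p := w) (n := 2)
    omega
  · have h3 : (3 * C pa * w * rem (aff G) g 0 * rem (aff G) g 1 * rem (aff G) g 2 : ℤ[X][X]) =
        C (3 * pa) * (w * rem (aff G) g 0 * rem (aff G) g 1 * rem (aff G) g 2) := by
      rw [C_mul]
      simp only [map_ofNat]
      ring
    rw [h3]
    refine (hC _ _).trans (natDegree_mul_le.trans ?_)
    have h4 := natDegree_mul_le (p := w * rem (aff G) g 0) (q := rem (aff G) g 1)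
    have h5 := natDegree_mul_le (p := w) (q := rem (aff G) g 0)
    have h6 := hr 0
    have h7 := hr 1
    have h8 := hr 2
    omega

/-- if the remainder vanishes, then `G` vanishes on the surface -/
lemma dvd_of_rem (P : ℤ[X][X][X]) (g : ℕ) (hP : P.natDegree ≤ g) (h : ∀ i < 3, rem P g i = 0) :
    f ∣ P := by
  apply f_dvd_of (g := g)
  have h1 : C (C pa) ^ g * P = ∑ q ∈ Finset.range (g + 1), C (C pa) ^ (g - q) *
      (C (P.coeff (3 * q)) + C (P.coeff (3 * q + 1)) * X + C (P.coeff (3 * q + 2)) * X ^ 2) *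
      (C (C pa) * X ^ 3) ^ q := by
    conv_lhs => rw [P.as_sum_range' (3 * (g + 1)) (by omega)]
    rw [sum_three, Finset.mul_sum]
    refine Finset.sum_congr rfl fun q hq => ?_
    rw [Finset.mem_range] at hq
    have h3 : (C (C pa) : ℤ[X][X][X]) ^ g = C (C pa) ^ (g - q) * C (C pa) ^ q := by
      rw [← pow_add]
      congr 1
      omega
    simp only [← C_mul_X_pow_eq_monomial]
    rw [h3]
    ring
  have h2 : ∑ q ∈ Finset.range (g + 1), C (C pa) ^ (g - q) *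
      (C (P.coeff (3 * q)) + C (P.coeff (3 * q + 1)) * X + C (P.coeff (3 * q + 2)) * X ^ 2) *
      (C w) ^ q = 0 := by
    have h4 : ∀ i < 3, ∑ q ∈ Finset.range (g + 1), C (C pa) ^ (g - q) * (C w) ^ q *
        (C (P.coeff (3 * q + i)) : ℤ[X][X][X]) = 0 := by
      intro i hi
      have h5 := congrArg (fun r : ℤ[X][X] => (C r : ℤ[X][X][X])) (h i hi)
      simp only [rem, map_sum, map_mul, map_pow, map_zero] at h5
      exact h5
    have h5 := h4 0 (by norm_num)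
    have h6 := h4 1 (by norm_num)
    have h7 := h4 2 (by norm_num)
    have h8 : ∑ q ∈ Finset.range (g + 1), C (C pa) ^ (g - q) *
      (C (P.coeff (3 * q)) + C (P.coeff (3 * q + 1)) * X + C (P.coeff (3 * q + 2)) * X ^ 2) *
      (C w) ^ q = (∑ q ∈ Finset.range (g + 1), C (C pa) ^ (g - q) * (C w) ^ q *
        (C (P.coeff (3 * q + 0)) : ℤ[X][X][X])) +
        (∑ q ∈ Finset.range (g + 1), C (C pa) ^ (g - q) * (C w) ^ q *
        (C (P.coeff (3 * q + 1)) : ℤ[X][X][X])) * X +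
        (∑ q ∈ Finset.range (g + 1), C (C pa) ^ (g - q) * (C w) ^ q *
        (C (P.coeff (3 * q + 2)) : ℤ[X][X][X])) * X ^ 2 := by
      rw [Finset.sum_mul, Finset.sum_mul, ← Finset.sum_add_distrib, ← Finset.sum_add_distrib]
      refine Finset.sum_congr rfl fun q _ => ?_
      rw [add_zero]
      ring
    rw [h8, h5, h6, h7]
    ring
  have h3 : ∀ q : ℕ, ∃ D : ℤ[X][X][X], (C (C pa) * X ^ 3) ^ q = (C w) ^ q + f * D := by
    intro q
    obtain ⟨D, hD⟩ := sub_dvd_pow_sub_pow (C (C pa) * X ^ 3 : ℤ[X][X][X]) (C w) q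
    refine ⟨D, ?_⟩
    unfold f
    rw [← hD]
    ring
  choose D hD using h3
  rw [h1]
  refine ⟨∑ q ∈ Finset.range (g + 1), C (C pa) ^ (g - q) *
      (C (P.coeff (3 * q)) + C (P.coeff (3 * q + 1)) * X + C (P.coeff (3 * q + 2)) * X ^ 2) *
      D q, ?_⟩
  rw [Finset.mul_sum]
  refine Eq.trans ?_ (zero_add _)
  rw [← h2, ← Finset.sum_add_distrib]
  refine Finset.sum_congr rfl fun q _ => ?_
  rw [hD q]
  ring

/-- `nrm G ≠ 0` if `G` does not vanish identically on the surface -/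
lemma nrm_ne (G : MvPolynomial (Fin 3) ℤ[X]) (g : ℕ) (hG : G.IsHomogeneous g)
    (t x y z : ℂ) (hz : z ≠ 0)
    (hX : eval₂ (Int.castRingHom ℂ) t pa * x ^ 3 + eval₂ (Int.castRingHom ℂ) t pb * y ^ 3 +
      eval₂ (Int.castRingHom ℂ) t pc * z ^ 3 = 0)
    (hne : MvPolynomial.eval₂ (eval₂RingHom (Int.castRingHom ℂ) t) ![x, y, z] G ≠ 0) :
    nrm G g ≠ 0 := by
  intro h0
  obtain ⟨h1, h2, h3⟩ := N_ne _ _ _ h0
  have hd : f ∣ aff G := by
    refine dvd_of_rem (aff G) g (aff_deg G g hG).1 fun i hi => ?_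
    interval_cases i <;> assumption
  apply hne
  have h4 : (![x, y, z] : Fin 3 → ℂ) = fun i => z * (![x / z, y / z, 1] : Fin 3 → ℂ) i := by
    funext i
    fin_cases i
    · simp [mul_div_cancel₀ _ hz]
    · simp [mul_div_cancel₀ _ hz]
    · simp
  rw [h4, eval₂_smul _ G g hG, ← aff_eval]
  obtain ⟨Q, hQ⟩ := hd
  rw [hQ, eval₂_mul]
  have h5 : eval₂ (eval₂RingHom (eval₂RingHom (Int.castRingHom ℂ) t) (y / z)) (x / z) f = 0 := by
    unfold f w
    simp only [eval₂_sub, eval₂_mul, eval₂_C, eval₂_X_pow, coe_eval₂RingHom, eval₂_neg, eval₂_add]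
    have h6 : z ^ 3 ≠ 0 := pow_ne_zero 3 hz
    field_simp
    linear_combination hX
  rw [h5, zero_mul, mul_zero]

lemma cube_inj {u v : ℤ[X]} (h : u ^ 3 = v ^ 3) : u = v := by
  refine Polynomial.funext fun p => ?_
  have h1 := congrArg (fun r => r.eval p) h
  simp only [eval_pow] at h1
  exact (Odd.strictMono_pow (by decide : Odd 3)).injective h1

/-- two sections which are equal have the same index -/
lemma index_eq {k l k' l' : ℤ} {n n' : ℕ} {x y z x' y' z' : ℤ[X]} (h : Sec k l n x y z)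
    (h' : Sec k' l' n' x' y' z') (hyz : y * z' = y' * z) : k = k' ∧ l = l' := by
  have hpa : pa ≠ 0 := by
    intro h0
    have := pa_one
    rw [h0, eval_zero] at this
    norm_num at this
  have h1 : (x * z') ^ 3 = (x' * z) ^ 3 := by
    refine mul_left_cancel₀ hpa ?_
    have e1 := h.eq
    have e2 := h'.eq
    have e3 : (y * z') ^ 3 = (y' * z) ^ 3 := by rw [hyz]
    linear_combination z' ^ 3 * e1 - z ^ 3 * e2 - pb * e3
  have h2 := cube_inj h1
  have a := congrArg (fun r => r.eval 1) hyz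
  have b := congrArg (fun r => r.eval 0) h2
  simp only [eval_mul] at a b
  rw [h.e2, h'.e2] at a
  rw [h.e4, h'.e4, h.e5, h'.e5] at b
  have a' : (1 - 3 * k + l) = (1 - 3 * k' + l') := by
    have : y.eval 1 * y'.eval 1 * ((1 - 3 * k' + l') - (1 - 3 * k + l)) = 0 := by
      linear_combination a
    rcases mul_eq_zero.1 this with h3 | h3
    · exact absurd h3 (mul_ne_zero h.e3 h'.e3)
    · omega
  have b' : (1 - 3 * k - l) = (1 - 3 * k' - l') := by
    have : y.eval 0 * y'.eval 0 * ((1 - 3 * k - l) - (1 - 3 * k' - l')) = 0 := by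
      linear_combination b
    rcases mul_eq_zero.1 this with h3 | h3
    · exact absurd h3 (mul_ne_zero h.e6 h'.e6)
    · omega
  omega

/-- the number of sections in `G = 0` -/
theorem count (G : MvPolynomial (Fin 3) ℤ[X]) (g : ℕ) (hG : G.IsHomogeneous g)
    (t x y z : ℂ) (hz : z ≠ 0)
    (hX : eval₂ (Int.castRingHom ℂ) t pa * x ^ 3 + eval₂ (Int.castRingHom ℂ) t pb * y ^ 3 +
      eval₂ (Int.castRingHom ℂ) t pc * z ^ 3 = 0)
    (hne : MvPolynomial.eval₂ (eval₂RingHom (Int.castRingHom ℂ) t) ![x, y, z] G ≠ 0)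
    (s : Finset (ℤ × ℤ)) (n : ℕ)
    (hs : ∀ p ∈ s, ∃ x y z : ℤ[X], Sec p.1 p.2 n x y z ∧ MvPolynomial.eval ![x, y, z] G = 0) :
    s.card ≤ 3 * g + 6 := by
  suffices key : ∀ (K : Type) [Field K] (φ : ℤ[X] →+* K), Function.Injective φ →
      s.card ≤ 3 * g + 6 from
    key (FractionRing ℤ[X]) (algebraMap ℤ[X] (FractionRing ℤ[X])) (IsFractionRing.injective _ _)
  intro K _ φ hφi
  classical
  choose! X1 Y1 Z1 hsec hvan using hs
  have hz0 : ∀ p ∈ s, φ (Z1 p) ≠ 0 := by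
    intro p hp h0
    have h1 : Z1 p = 0 := hφi (by rw [h0, map_zero])
    have h2 := (hsec p hp).e4
    rw [h1, eval_zero] at h2
    exact (hsec p hp).e6 h2.symm
  have hN := nrm_ne G g hG t x y z hz hX hne
  have hNK : (nrm G g).map φ ≠ 0 := (Polynomial.map_ne_zero_iff hφi).2 hN
  have hroot : ∀ p ∈ s, φ (Y1 p) / φ (Z1 p) ∈ ((nrm G g).map φ).roots.toFinset := by
    intro p hp
    rw [Multiset.mem_toFinset, mem_roots hNK, IsRoot.def, eval_map]
    set η := φ (Y1 p) / φ (Z1 p) with hη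
    set ξ := φ (X1 p) / φ (Z1 p) with hξ
    have hzz := hz0 p hp
    have heq : φ pa * φ (X1 p) ^ 3 + φ pb * φ (Y1 p) ^ 3 + φ pc * φ (Z1 p) ^ 3 = 0 := by
      have := congrArg φ (hsec p hp).eq
      simpa only [map_add, map_mul, map_pow, map_zero] using this
    have hw : φ pa * ξ ^ 3 = eval₂ φ η w := by
      unfold w
      simp only [eval₂_neg, eval₂_add, eval₂_mul, eval₂_C, eval₂_X_pow]
      rw [hη, hξ]
      field_simp
      linear_combination heq
    have h1 := rem_eval φ ξ η (aff G) g (aff_deg G g hG).1 hw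
    have h2 : MvPolynomial.eval₂ φ ![ξ, η, 1] G = 0 := by
      have h3 : (![φ (X1 p), φ (Y1 p), φ (Z1 p)] : Fin 3 → K) =
          fun i => φ (Z1 p) * (![ξ, η, 1] : Fin 3 → K) i := by
        funext i
        fin_cases i
        · simp [hξ, mul_div_cancel₀ _ hzz]
        · simp [hη, mul_div_cancel₀ _ hzz]
        · simp
      have h4 : MvPolynomial.eval₂ φ ![φ (X1 p), φ (Y1 p), φ (Z1 p)] G = 0 := by
        have h5 : φ (MvPolynomial.eval ![X1 p, Y1 p, Z1 p] G) =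
            MvPolynomial.eval₂ (φ.comp (RingHom.id _)) (φ ∘ ![X1 p, Y1 p, Z1 p]) G := by
          rw [MvPolynomial.eval, MvPolynomial.coe_eval₂Hom]
          exact MvPolynomial.eval₂_comp_left _ _ _ _
        rw [hvan p hp, map_zero] at h5
        rw [h5]
        congr 1
        funext i
        fin_cases i <;> rfl
      rw [h3, eval₂_smul _ G g hG] at h4
      exact (mul_eq_zero.1 h4).resolve_left (pow_ne_zero _ hzz)
    rw [aff_eval, h2, mul_zero] at h1
    unfold nrm N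
    simp only [eval₂_sub, eval₂_add, eval₂_mul, eval₂_pow, eval₂_C]
    rw [← hw]
    have h3 : eval₂ φ η (3 : ℤ[X][X]) = 3 := by
      rw [← coe_eval₂RingHom]
      simp
    rw [h3]
    set ρ0 := eval₂ φ η (rem (aff G) g 0)
    set ρ1 := eval₂ φ η (rem (aff G) g 1)
    set ρ2 := eval₂ φ η (rem (aff G) g 2)
    linear_combination (φ pa ^ 2 * (ρ0 ^ 2 + ξ ^ 2 * ρ1 ^ 2 + ξ ^ 4 * ρ2 ^ 2 - ξ * ρ0 * ρ1 -
      ξ ^ 2 * ρ0 * ρ2 - ξ ^ 3 * ρ1 * ρ2)) * h1
  have hinj : Set.InjOn (fun p => φ (Y1 p) / φ (Z1 p)) s := by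
    intro p hp p' hp' h
    simp only at h
    rw [div_eq_div_iff (hz0 p hp) (hz0 p' hp'), ← map_mul, ← map_mul] at h
    have h1 := hφi h
    obtain ⟨h2, h3⟩ := index_eq (hsec p hp) (hsec p' hp') h1
    exact Prod.ext h2 h3
  calc s.card = (s.image fun p => φ (Y1 p) / φ (Z1 p)).card := (Finset.card_image_of_injOn hinj).symm
    _ ≤ ((nrm G g).map φ).roots.toFinset.card := by
        refine Finset.card_le_card fun r hr => ?_
        obtain ⟨p, hp, rfl⟩ := Finset.mem_image.1 hr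
        exact hroot p hp
    _ ≤ ((nrm G g).map φ).natDegree := (Multiset.toFinset_card_le _).trans (card_roots' _)
    _ ≤ (nrm G g).natDegree := natDegree_map_le
    _ ≤ 3 * g + 6 := nrm_deg G g hG

end Pool.Agent.X323.ES
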