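import Pool.Agent.X323.BD

set_option autoImplicit false

/-!
Divisors of `1 - X ^ k` with constant term one have integral coefficients; forms vanishing on the
curves `(P : Q : 1)`, `P Q = 1 - X ^ k`.
-/

namespace Pool.Agent.X323.BD

open NumberField IsDedekindDomain Pool.Agent.W231.V Polynomial

/-- a divisor of `1 - X ^ k` with constant term one has integral coefficients -/
theorem ints {K : Type} [Field K] [NumberField K] {k : ℕ} (hk : 1 ≤ k) {P Q : K[X]}
    (hP0 : P.eval 0 = 1) (hPQ : P * Q = 1 - X ^ k) (n : ℕ) : IsIntegral ℤ (P.coeff n) := by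
  have h1 : (1 - X ^ k : K[X]) ≠ 0 := by
    intro h
    have := congrArg (eval 0) h
    simp [show k ≠ 0 by omega] at this
  have hP : P ≠ 0 := by
    rintro rfl
    exact h1 (by rw [← hPQ, zero_mul])
  have hQ : Q ≠ 0 := by
    rintro rfl
    exact h1 (by rw [← hPQ, mul_zero])
  set c := P.leadingCoeff with hc
  set e := Q.leadingCoeff with he
  have hc0 : c ≠ 0 := leadingCoeff_ne_zero.2 hP
  have he0 : e ≠ 0 := leadingCoeff_ne_zero.2 hQ
  have hmon : ((X : ℤ[X]) ^ k - 1).Monic := by
    have := monic_X_pow_sub_C (1 : ℤ) (n := k) (by omega)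
    simpa using this
  have hlead : c * e = -1 := by
    have h2 : (P * Q).leadingCoeff = c * e := leadingCoeff_mul _ _
    have h3 : (1 - X ^ k : K[X]) = -(X ^ k - C 1) := by simp
    rw [← h2, hPQ, h3, leadingCoeff_neg, leadingCoeff_X_pow_sub_C (by omega)]
  have hPm : (C c⁻¹ * P).Monic := by
    rw [mul_comm]
    exact monic_mul_leadingCoeff_inv hP
  have hQm : (C e⁻¹ * Q).Monic := by
    rw [mul_comm]
    exact monic_mul_leadingCoeff_inv hQ
  have hprod : (C c⁻¹ * P) * (C e⁻¹ * Q) = map (algebraMap ℤ K) (X ^ k - 1) := by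
    have h4 : (C c⁻¹ * P) * (C e⁻¹ * Q) = C ((c * e)⁻¹) * (P * Q) := by
      rw [mul_inv, C_mul]; ring
    rw [h4, hPQ, hlead]
    simp
  have hi1 : ∀ i, IsIntegral ℤ ((C c⁻¹ * P).coeff i) :=
    isIntegral_coeff_of_dvd _ _ hmon hPm ⟨_, hprod.symm⟩
  have hi2 : ∀ i, IsIntegral ℤ ((C e⁻¹ * Q).coeff i) :=
    isIntegral_coeff_of_dvd _ _ hmon hQm ⟨_, by rw [mul_comm, hprod]⟩
  -- the leading coefficient is integral
  have hQ0 : Q.eval 0 = 1 := by
    have := congrArg (eval 0) hPQ
    rw [eval_mul, hP0, one_mul] at this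
    simpa [show k ≠ 0 by omega] using this
  have hc1 : IsIntegral ℤ c := by
    have h5 := hi2 0
    rw [coeff_C_mul, coeff_zero_eq_eval_zero, hQ0, mul_one] at h5
    have h6 : c = -e⁻¹ := by
      field_simp
      linear_combination hlead
    rw [h6]
    exact h5.neg
  have h7 : P.coeff n = c * (C c⁻¹ * P).coeff n := by
    rw [coeff_C_mul, ← mul_assoc, mul_inv_cancel₀ hc0, one_mul]
  rw [h7]
  exact hc1.mul (hi1 n)

/-- values of `P` at integers -/
theorem vals {K : Type} [Field K] [NumberField K] {P : K[X]} (hP : ∀ n, IsIntegral ℤ (P.coeff n))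
    (hP0 : P.eval 0 = 1) (t : ℕ) : ∃ a a' : 𝓞 K, (a : K) = P.eval (t : K) ∧
      a = 1 + (t : 𝓞 K) * a' := by
  obtain ⟨P', hP'⟩ := (mem_lifts P).1 ((lifts_iff_coeff_lifts (f := algebraMap (𝓞 K) K) P).2
    fun n => ⟨⟨P.coeff n, hP n⟩, rfl⟩)
  have h1 : ∀ s : 𝓞 K, algebraMap (𝓞 K) K (P'.eval s) = P.eval (algebraMap (𝓞 K) K s) := by
    intro s
    rw [← hP', eval_map_algebraMap]
    exact (aeval_algebraMap_apply_eq_algebraMap_eval s P').symm
  obtain ⟨a', ha'⟩ := sub_dvd_eval_sub (t : 𝓞 K) 0 P'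
  have h2 : P'.eval 0 = 1 := by
    apply NumberField.RingOfIntegers.ext
    change algebraMap (𝓞 K) K _ = algebraMap (𝓞 K) K _
    rw [h1 0, map_zero, hP0, map_one]
  refine ⟨P'.eval (t : 𝓞 K), a', ?_, ?_⟩
  · change algebraMap (𝓞 K) K _ = _
    rw [h1, map_natCast]
  · rw [h2, sub_zero] at ha'
    rw [← ha']; ring

/-- the height of the points of the curve -/
theorem height_le {K : Type} [Field K] [NumberField K] {k : ℕ} {P Q : K[X]}
    (hP : P.natDegree ≤ k) (hQ : Q.natDegree ≤ k) : ∃ A : ℝ, 1 ≤ A ∧ ∀ (t : ℕ) (a b : 𝓞 K), 1 ≤ t →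
      (a : K) = P.eval (t : K) → (b : K) = Q.eval (t : K) →
      Height.logHeight (pnt a b) ≤ (Height.totalWeight K : ℝ) * (Real.log A + k * Real.log t) := by
  classical
  set A : ℝ := 1 + ∑ w : InfinitePlace K, ∑ i ∈ Finset.range (k + 1),
    (w (P.coeff i) + w (Q.coeff i)) with hA
  have h0 : ∀ w : InfinitePlace K, 0 ≤ ∑ i ∈ Finset.range (k + 1),
      (w (P.coeff i) + w (Q.coeff i)) := fun w =>
    Finset.sum_nonneg fun i _ => add_nonneg (apply_nonneg w _) (apply_nonneg w _)
  have hA1 : 1 ≤ A := by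
    rw [hA]
    linarith [Finset.sum_nonneg fun w (_ : w ∈ Finset.univ) => h0 w]
  have hwA : ∀ w : InfinitePlace K, ∑ i ∈ Finset.range (k + 1),
      (w (P.coeff i) + w (Q.coeff i)) ≤ A := by
    intro w
    have := Finset.single_le_sum (f := fun w : InfinitePlace K => ∑ i ∈ Finset.range (k + 1),
      (w (P.coeff i) + w (Q.coeff i))) (fun w _ => h0 w) (Finset.mem_univ w)
    rw [hA]
    linarith
  have hpoly : ∀ (w : InfinitePlace K) (R : K[X]) (t : ℕ), 1 ≤ t → R.natDegree ≤ k →
      w (R.eval (t : K)) ≤ (∑ i ∈ Finset.range (k + 1), w (R.coeff i)) * (t : ℝ) ^ k := by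
    intro w R t ht hR
    have ht' : (1 : ℝ) ≤ t := by exact_mod_cast ht
    rw [eval_eq_sum_range' (Nat.lt_succ_of_le hR), Finset.sum_mul]
    refine (w.1.sum_le _ _).trans (Finset.sum_le_sum fun i hi => ?_)
    have e : w (t : K) = t := by simp
    have e2 : w.1 (R.coeff i * (t : K) ^ i) = w (R.coeff i) * (t : ℝ) ^ i := by
      have : w.1 (R.coeff i * (t : K) ^ i) = w (R.coeff i * (t : K) ^ i) := rfl
      rw [this, map_mul, map_pow, e]
    rw [e2]
    exact mul_le_mul_of_nonneg_left (pow_le_pow_right₀ ht'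
      (Nat.lt_succ_iff.1 (Finset.mem_range.1 hi))) (apply_nonneg w _)
  refine ⟨A, hA1, fun t a b ht ha hb => ?_⟩
  have ht' : (1 : ℝ) ≤ t := by exact_mod_cast ht
  have htk : (1 : ℝ) ≤ (t : ℝ) ^ k := one_le_pow₀ ht'
  have hM : (0 : ℝ) < A * (t : ℝ) ^ k := by positivity
  have h1 := logHeight_le_of (K := K) (pnt_ne a b) hM (by
    intro w j
    have hs := hwA w
    rw [Finset.sum_add_distrib] at hs
    have n1 : 0 ≤ ∑ i ∈ Finset.range (k + 1), w (P.coeff i) :=
      Finset.sum_nonneg fun i _ => apply_nonneg w _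
    have n2 : 0 ≤ ∑ i ∈ Finset.range (k + 1), w (Q.coeff i) :=
      Finset.sum_nonneg fun i _ => apply_nonneg w _
    fin_cases j
    · change w (a : K) ≤ _
      rw [ha]
      exact (hpoly w P t ht hP).trans (mul_le_mul_of_nonneg_right (by linarith) (by positivity))
    · change w (b : K) ≤ _
      rw [hb]
      exact (hpoly w Q t ht hQ).trans (mul_le_mul_of_nonneg_right (by linarith) (by positivity))
    · change w 1 ≤ _
      rw [map_one]
      exact one_le_mul_of_one_le_of_one_le hA1 htk) fun v j => pnt_fv a b v j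
  rwa [Real.log_mul (by positivity) (by positivity), Real.log_pow] at h1

/-- a nonzero polynomial does not vanish at `q ^ n`, `n` large -/
theorem eventually_ne' {F : Type} [Field F] [CharZero F] {q : ℕ} (hq : 2 ≤ q) (P : F[X])
    (hP : P ≠ 0) : ∀ᶠ m : ℕ in Filter.atTop, P.eval ((q ^ m : ℕ) : F) ≠ 0 := by
  rw [← Nat.cofinite_eq_atTop, Filter.eventually_cofinite]
  have h1 : {m : ℕ | ¬ P.eval ((q ^ m : ℕ) : F) ≠ 0} =
      (fun m : ℕ => ((q ^ m : ℕ) : F)) ⁻¹' {x | P.IsRoot x} := by
    ext m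
    simp [Polynomial.IsRoot]
  rw [h1]
  refine Set.Finite.preimage (fun m _ m' _ h => ?_) (Polynomial.finite_setOfPred_isRoot hP)
  have h2 : q ^ m = q ^ m' := by exact_mod_cast h
  exact Nat.pow_right_injective hq h2

/-- a form of degree `N` vanishes on at most `2 N` of the curves `(P : Q : 1)`, `P Q = 1 - X ^ k` -/
theorem count {K : Type} [Field K] [CharZero K] (Ω : Type) [Field Ω] [Algebra K Ω]
    [IsAlgClosed Ω] {k : ℕ} (hk : 1 ≤ k) (H : MvPolynomial (Fin 3) K)
    (hH0 : H ≠ 0) {N : ℕ} (hH : H.IsHomogeneous N) (Ps : Finset K[X])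
    (hPs : ∀ P ∈ Ps, ∃ Q : K[X], P * Q = 1 - X ^ k ∧
      MvPolynomial.eval₂ (C : K →+* K[X]) (![P, Q, 1] : Fin 3 → K[X]) H = 0) :
    Ps.card ≤ 2 * N := by
  classical
  have hcomp : ∀ {R T : Type} [CommRing R] [CommRing T] (g : R →+* T) (f : K →+* R)
      (v : Fin 3 → R) (w : Fin 3 → T), (∀ i, g (v i) = w i) →
      g (MvPolynomial.eval₂ f v H) = MvPolynomial.eval₂ (g.comp f) w H := by
    intro R T _ _ g f v w hw
    rw [MvPolynomial.hom_eval₂]
    congr 1
    funext i
    exact hw i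
  set v : Fin 3 → K[X][X] := ![X ^ 2, C (1 - X ^ k), X] with hv
  set HC : MvPolynomial (Fin 3) K[X] := MvPolynomial.map (C : K →+* K[X]) H with hHC
  set R : K[X][X] := MvPolynomial.aeval v HC with hR
  have hRe : R = MvPolynomial.eval₂ ((C : K[X] →+* K[X][X]).comp (C : K →+* K[X])) v H := by
    rw [hR, MvPolynomial.aeval_def, hHC, MvPolynomial.eval₂_map]
    rfl
  have hRdeg : R.natDegree ≤ N * 2 := by
    refine MvPolynomial.aeval_natDegree_le (m := N) (n := 2) HC
      ((hH.map _).totalDegree_le) v (fun j => ?_)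
    fin_cases j
    · simp [hv]
    · change (C (1 - X ^ k : K[X])).natDegree ≤ 2
      rw [natDegree_C]
      omega
    · simp [hv]
  have hR0 : R ≠ 0 := by
    intro h0
    apply hH0
    have : CharZero Ω := charZero_of_injective_algebraMap (algebraMap K Ω).injective
    have hCH : MvPolynomial.map (algebraMap K Ω) H = 0 := by
      have h1 : ∀ z : Fin 3 → Ω, z 0 ≠ 0 → z 2 ≠ 0 →
          MvPolynomial.eval z (MvPolynomial.map (algebraMap K Ω) H) = 0 := by
        intro z hz0 hz2
        obtain ⟨τ, hτ⟩ := IsAlgClosed.exists_pow_nat_eq (1 - z 0 * z 1 / z 2 ^ 2) hk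
        have h2 := hcomp (eval₂RingHom (eval₂RingHom (algebraMap K Ω) τ)
          (z 0 / z 2)) ((C : K[X] →+* K[X][X]).comp (C : K →+* K[X])) v
            (fun i => z 0 / z 2 ^ 2 * z i) (by
          intro i
          fin_cases i
          · simp only [hv, Fin.zero_eta, Matrix.cons_val_zero, map_pow,
              Polynomial.coe_eval₂RingHom, Polynomial.eval₂_X]
            field_simp
          · simp only [hv, Fin.mk_one, Matrix.cons_val_one, Polynomial.coe_eval₂RingHom,
              Polynomial.eval₂_C, Matrix.cons_val_zero, Polynomial.eval₂_sub,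
              Polynomial.eval₂_one, Polynomial.eval₂_X_pow, hτ]
            field_simp
            ring
          · simp [hv]
            field_simp)
        rw [← hRe, h0, map_zero] at h2
        have h3 : (eval₂RingHom (eval₂RingHom (algebraMap K Ω) τ)
          (z 0 / z 2)).comp ((C : K[X] →+* K[X][X]).comp (C : K →+* K[X])) = algebraMap K Ω := by
          ext; simp
        rw [h3, hom_eval₂ _ hH, ← MvPolynomial.eval_map] at h2
        refine (mul_eq_zero.1 h2.symm).resolve_left (pow_ne_zero _ ?_)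
        exact div_ne_zero hz0 (pow_ne_zero _ hz2)
      have h4 : MvPolynomial.map (algebraMap K Ω) H * (MvPolynomial.X 0 * MvPolynomial.X 2) = 0 := by
        refine MvPolynomial.funext fun z => ?_
        rw [map_mul (MvPolynomial.eval z), map_zero, map_mul (MvPolynomial.eval z)
          (MvPolynomial.X 0), MvPolynomial.eval_X, MvPolynomial.eval_X]
        by_cases hz0 : z 0 = 0
        · rw [hz0, zero_mul, mul_zero]
        by_cases hz2 : z 2 = 0
        · rw [hz2, mul_zero, mul_zero]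
        rw [h1 z hz0 hz2, zero_mul]
      exact (mul_eq_zero.1 h4).resolve_right (mul_ne_zero (MvPolynomial.X_ne_zero 0)
        (MvPolynomial.X_ne_zero 2))
    exact MvPolynomial.map_injective _ (algebraMap K Ω).injective (by rw [hCH, map_zero])
  have hroots : ∀ P ∈ Ps, P ∈ R.roots := by
    intro φ hφP
    obtain ⟨χ, hφχ, hvan⟩ := hPs φ hφP
    rw [Polynomial.mem_roots hR0, Polynomial.IsRoot.def]
    have h2 := hcomp (evalRingHom φ) ((C : K[X] →+* K[X][X]).comp (C : K →+* K[X])) v
        (fun i => φ * (![φ, χ, 1] : Fin 3 → _) i) (by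
          intro i
          fin_cases i
          · simp [hv, sq]
          · simp [hv, hφχ]
          · simp [hv])
    rw [← hRe] at h2
    have h3 : (evalRingHom φ).comp ((C : K[X] →+* K[X][X]).comp (C : K →+* K[X])) =
        (C : K →+* K[X]) := by
      ext; simp
    rw [h3, hom_eval₂ _ hH, hvan, mul_zero] at h2
    exact h2
  calc Ps.card ≤ R.roots.toFinset.card := Finset.card_le_card fun P hP => by
        rw [Multiset.mem_toFinset]; exact hroots P hP
    _ ≤ Multiset.card R.roots := Multiset.toFinset_card_le _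
    _ ≤ R.natDegree := Polynomial.card_roots' R
    _ ≤ N * 2 := hRdeg
    _ = 2 * N := by ring

end Pool.Agent.X323.BD
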