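import Pool.Agent.W231.V.Main2
import Pool.Agent.W231.G.Fin

set_option autoImplicit false

/-!
Curves `(P : Q : 1)`, `P Q = 1 - X ^ k`, over a number field.
-/

namespace Pool.Agent.X323.BD

open NumberField IsDedekindDomain Pool.Agent.W231.V

/-- evaluating an integer polynomial at points congruent modulo `t` -/
theorem aeval_congr {R : Type*} [CommRing R] {t : R} (F : MvPolynomial (Fin 3) ℤ) (x y : Fin 3 → R)
    (h : ∀ i, t ∣ x i - y i) : t ∣ MvPolynomial.aeval x F - MvPolynomial.aeval y F := by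
  induction F using MvPolynomial.induction_on with
  | C a => simp
  | add p q hp hq =>
    have : MvPolynomial.aeval x (p + q) - MvPolynomial.aeval y (p + q) =
        (MvPolynomial.aeval x p - MvPolynomial.aeval y p) +
          (MvPolynomial.aeval x q - MvPolynomial.aeval y q) := by
      simp only [map_add]; ring
    rw [this]
    exact dvd_add hp hq
  | mul_X p i hp =>
    have : MvPolynomial.aeval x (p * MvPolynomial.X i) - MvPolynomial.aeval y (p * MvPolynomial.X i) =
        (MvPolynomial.aeval x p - MvPolynomial.aeval y p) * x i +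
          MvPolynomial.aeval y p * (x i - y i) := by
      simp only [map_mul, MvPolynomial.aeval_X]; ring
    rw [this]
    exact dvd_add (Dvd.dvd.mul_right hp _) (Dvd.dvd.mul_left (h i) _)

theorem abs_int {L : Type} [Field L] [NumberField L] (w : InfinitePlace L) (c : ℤ) :
    w (c : L) = |(c : ℝ)| := by
  obtain ⟨φ, hφ⟩ := w.2
  have h1 : w (c : L) = ‖φ (c : L)‖ := by
    have := congrArg (fun f : AbsoluteValue L ℝ => f (c : L)) hφ
    exact this.symm
  rw [h1, map_intCast, Complex.norm_intCast]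

/-- size of the values of a form at an infinite place -/
theorem arch_eval {L : Type} [Field L] [NumberField L] (w : InfinitePlace L)
    (F : MvPolynomial (Fin 3) ℤ) {d : ℕ} (hF : F.IsHomogeneous d) (x : Fin 3 → L) :
    w (MvPolynomial.aeval x F) ≤
      (∑ m ∈ F.support, |((F.coeff m : ℤ) : ℝ)|) * (⨆ j, w (x j)) ^ d := by
  rw [MvPolynomial.aeval_def, MvPolynomial.eval₂_eq', Finset.sum_mul]
  have hle : ∀ j, w (x j) ≤ ⨆ j, w (x j) := fun j =>
    le_ciSup (f := fun j => w (x j)) (Set.finite_range _).bddAbove j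
  refine (w.1.sum_le _ _).trans (Finset.sum_le_sum fun m hm => ?_)
  have h1 : w.1 ((algebraMap ℤ L) (F.coeff m) * ∏ i, x i ^ m i) =
      |((F.coeff m : ℤ) : ℝ)| * ∏ i, w (x i) ^ m i := by
    rw [map_mul, map_prod]
    congr 1
    · exact abs_int w _
    · exact Finset.prod_congr rfl fun i _ => map_pow _ _ _
  rw [h1]
  refine mul_le_mul_of_nonneg_left ?_ (abs_nonneg _)
  have h2 : ∑ i, m i = d := by
    have h3 := hF (MvPolynomial.mem_support_iff.1 hm)
    have h4 := (DFunLike.congr_fun (Finsupp.degree_eq_weight_one (σ := Fin 3) (R := ℕ)) m).trans h3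
    rw [← h4, Finsupp.degree_apply]
    exact (Finset.sum_subset (Finset.subset_univ _) fun i _ hi => by
      simpa using hi).symm
  rw [← h2, ← Finset.prod_pow_eq_pow_sum]
  exact Finset.prod_le_prod (fun i _ => pow_nonneg (apply_nonneg w _) _) fun i _ =>
    pow_le_pow_left₀ (apply_nonneg w _) (hle i) _

theorem primes_finite {L : Type} [Field L] [NumberField L] {S : Finset ℕ}
    (hS : ∀ p ∈ S, p.Prime) :
    {v : HeightOneSpectrum (𝓞 L) | ∃ p ∈ S, (p : 𝓞 L) ∈ v.asIdeal}.Finite := by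
  have hsub : {v : HeightOneSpectrum (𝓞 L) | ∃ p ∈ S, (p : 𝓞 L) ∈ v.asIdeal} ⊆
      ⋃ p ∈ S, {v : HeightOneSpectrum (𝓞 L) | fv v (p : L) ≠ 1} := by
    rintro v ⟨p', hp', hv⟩
    simp only [Set.mem_iUnion]
    refine ⟨p', hp', ?_⟩
    have h2 := (FinitePlace.norm_lt_one_iff_mem L v (p' : 𝓞 L)).2 hv
    rw [map_natCast] at h2
    exact h2.ne
  exact (Set.Finite.biUnion S.finite_toSet fun p' hp' => fv_support_finite
    (Nat.cast_ne_zero.2 (hS p' hp').ne_zero)).subset hsub

theorem fv_eq_one {L : Type} [Field L] [NumberField L] {S : Finset ℕ} {q : ℕ} (hq : q ∈ S)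
    (v : HeightOneSpectrum (𝓞 L)) (hv : ¬ ∃ p ∈ S, (p : 𝓞 L) ∈ v.asIdeal) : fv v (q : L) = 1 := by
  have hv' : (q : 𝓞 L) ∉ v.asIdeal := fun h => hv ⟨q, hq, h⟩
  have h3 := (FinitePlace.norm_eq_one_iff_notMem L v (q : 𝓞 L)).2 hv'
  rw [map_natCast] at h3
  exact h3

/-- the equation of the divisor -/
noncomputable def divi (F : MvPolynomial (Fin 3) ℤ) : MvPolynomial (Fin 3) ℤ :=
  MvPolynomial.X 2 * (MvPolynomial.X 0 * MvPolynomial.X 1 - MvPolynomial.X 2 ^ 2) * F

/-- the point with coordinates `a, b, 1` -/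
noncomputable def pnt {L : Type} [Field L] [NumberField L] (a b : 𝓞 L) : Fin 3 → L :=
  ![(a : L), (b : L), 1]

theorem pnt_ne {L : Type} [Field L] [NumberField L] (a b : 𝓞 L) : pnt a b ≠ 0 := by
  intro h
  have := congrFun h 2
  simp [pnt] at this

theorem pnt_fv {L : Type} [Field L] [NumberField L] (a b : 𝓞 L) (v : HeightOneSpectrum (𝓞 L))
    (j : Fin 3) : fv v (pnt a b j) ≤ 1 := by
  refine fv_isIntegral ?_ v
  fin_cases j
  · exact a.isIntegral_coe
  · exact b.isIntegral_coe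
  · exact isIntegral_one

theorem pnt_sup {L : Type} [Field L] [NumberField L] (a b : 𝓞 L) (v : HeightOneSpectrum (𝓞 L)) :
    ⨆ j, fv v (pnt a b j) = 1 := by
  refine le_antisymm (ciSup_le fun j => pnt_fv a b v j) ?_
  have h := le_ciSup (f := fun j => fv v (pnt a b j)) (Set.finite_range _).bddAbove 2
  have h2 : fv v (pnt a b 2) = 1 := by simp [pnt]
  simpa [h2] using h

theorem pnt_aeval {L : Type} [Field L] [NumberField L] (a b : 𝓞 L) (F : MvPolynomial (Fin 3) ℤ) :
    MvPolynomial.aeval (pnt a b) F =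
      ((MvPolynomial.aeval (![a, b, 1] : Fin 3 → 𝓞 L) F : 𝓞 L) : L) := by
  have h : pnt a b = (algebraMap (𝓞 L) L) ∘ (![a, b, 1] : Fin 3 → 𝓞 L) := by
    funext j
    fin_cases j
    · rfl
    · rfl
    · simp [pnt]
  rw [h, MvPolynomial.aeval_algebraMap_apply]

/-- the main estimate -/
theorem key {L : Type} [Field L] [NumberField L] {d : ℕ} {F : MvPolynomial (Fin 3) ℤ}
    (hF : F.IsHomogeneous d) (hF1 : MvPolynomial.eval (fun _ => (1 : ℤ)) F = 0)
    {S : Finset ℕ} (hS : ∀ p ∈ S, p.Prime) {q : ℕ} (hq : q ∈ S) (n k : ℕ) (a b a' b' : 𝓞 L)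
    (ha : a = 1 + ((q ^ n : ℕ) : 𝓞 L) * a') (hb : b = 1 + ((q ^ n : ℕ) : 𝓞 L) * b')
    (hab : a * b = 1 - ((q ^ n : ℕ) : 𝓞 L) ^ k) (hFx : MvPolynomial.aeval (pnt a b) F ≠ 0) :
    3 * Height.logHeight (pnt a b) + (Height.totalWeight L : ℝ) * (Real.log ((q ^ n : ℕ) : ℝ) -
        Real.log (∑ m ∈ F.support, |((F.coeff m : ℤ) : ℝ)|)) ≤
      (∑ w : InfinitePlace L, (w.mult : ℝ) * Real.log ((⨆ j, w (pnt a b j)) ^ (d + 3) /
          w (MvPolynomial.aeval (pnt a b) (divi F)))) +
        ∑ᶠ v ∈ {v : HeightOneSpectrum (𝓞 L) | ∃ p ∈ S, (p : 𝓞 L) ∈ v.asIdeal},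
          Real.log ((⨆ j, fv v (pnt a b j)) ^ (d + 3) /
            fv v (MvPolynomial.aeval (pnt a b) (divi F))) := by
  classical
  set x := pnt a b with hx
  set t : ℕ := q ^ n with ht
  have hq0 : q ≠ 0 := (hS q hq).ne_zero
  have ht0 : t ≠ 0 := pow_ne_zero _ hq0
  have htL : (t : L) ≠ 0 := Nat.cast_ne_zero.2 ht0
  have hset := primes_finite (L := L) hS
  rw [finsum_mem_eq_finite_toFinset_sum _ hset]
  set U := hset.toFinset with hU
  -- the value of the equation
  have hB : MvPolynomial.aeval x (divi F) = -((t : L) ^ k * MvPolynomial.aeval x F) := by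
    have h1 : (a : L) * b = 1 - (t : L) ^ k := by
      have := congrArg (algebraMap (𝓞 L) L) hab
      simpa using this
    have h2 : x 0 = (a : L) := rfl
    have h3 : x 1 = (b : L) := rfl
    have h4 : x 2 = (1 : L) := rfl
    unfold divi
    simp only [map_mul, map_sub, map_pow, MvPolynomial.aeval_X, h2, h3, h4, h1]
    ring
  have hFx' : MvPolynomial.aeval x F ≠ 0 := hFx
  -- the divisibility
  have hdvd : ((t : ℕ) : 𝓞 L) ∣ MvPolynomial.aeval (![a, b, 1] : Fin 3 → 𝓞 L) F := by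
    have h1 := aeval_congr (t := ((t : ℕ) : 𝓞 L)) F (![a, b, 1] : Fin 3 → 𝓞 L) (fun _ => 1) (by
      intro i
      fin_cases i
      · exact ⟨a', by simp [ha]⟩
      · exact ⟨b', by simp [hb]⟩
      · simp)
    have h2 : MvPolynomial.aeval (fun _ : Fin 3 => (1 : 𝓞 L)) F = 0 := by
      have h3 : (fun _ : Fin 3 => (1 : 𝓞 L)) = (algebraMap ℤ (𝓞 L)) ∘ (fun _ : Fin 3 => (1 : ℤ)) := by
        funext j; simp
      rw [h3, MvPolynomial.aeval_algebraMap_apply]
      have h4 : MvPolynomial.aeval (fun _ : Fin 3 => (1 : ℤ)) F = 0 := hF1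
      rw [h4, map_zero]
    rwa [h2, sub_zero] at h1
  have hfinF : ∀ v : HeightOneSpectrum (𝓞 L), fv v (MvPolynomial.aeval x F) ≤ fv v (t : L) := by
    intro v
    obtain ⟨c, hc⟩ := hdvd
    rw [hx, pnt_aeval, hc]
    change fv v (algebraMap (𝓞 L) L ((t : 𝓞 L) * c)) ≤ _
    rw [map_mul, map_natCast, map_mul]
    exact mul_le_of_le_one_right ((fv v).nonneg _) (fv_isIntegral c.isIntegral_coe v)
  -- finite places
  have hfin : ∀ v : HeightOneSpectrum (𝓞 L), -((k : ℝ) + 1) * Real.log (fv v (t : L)) ≤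
      Real.log ((⨆ j, fv v (x j)) ^ (d + 3) / fv v (MvPolynomial.aeval x (divi F))) := by
    intro v
    have h1 : ⨆ j, fv v (x j) = 1 := pnt_sup a b v
    have h2 : 0 < fv v (t : L) := (fv v).pos_iff.2 htL
    have h3 : 0 < fv v (MvPolynomial.aeval x F) := (fv v).pos_iff.2 hFx'
    have h4 := Real.log_le_log h3 (hfinF v)
    rw [h1, one_pow, one_div, Real.log_inv, hB, (fv v).map_neg, map_mul, map_pow,
      Real.log_mul (pow_pos h2 _).ne' h3.ne', Real.log_pow]
    linarith
  -- infinite places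
  have hpos : ∀ w : InfinitePlace L, 1 ≤ ⨆ j, w (x j) := by
    intro w
    have h := le_ciSup (f := fun j => w (x j)) (Set.finite_range _).bddAbove 2
    have h2 : w (x 2) = 1 := by simp [hx, pnt]
    simpa [h2] using h
  set Lf : ℝ := ∑ m ∈ F.support, |((F.coeff m : ℤ) : ℝ)| with hLf
  have hLf0 : 0 < Lf := by
    have hF0 : F ≠ 0 := by
      rintro rfl
      exact hFx' (map_zero _)
    obtain ⟨s, hs⟩ := MvPolynomial.support_nonempty.2 hF0
    refine Finset.sum_pos' (fun _ _ => abs_nonneg _) ⟨s, hs, ?_⟩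
    rw [abs_pos]
    exact_mod_cast MvPolynomial.mem_support_iff.1 hs
  have hinf : ∀ w : InfinitePlace L, 3 * Real.log (⨆ j, w (x j)) - k * Real.log t - Real.log Lf ≤
      Real.log ((⨆ j, w (x j)) ^ (d + 3) / w (MvPolynomial.aeval x (divi F))) := by
    intro w
    have h1 : 0 < ⨆ j, w (x j) := zero_lt_one.trans_le (hpos w)
    have h2 : w (t : L) = t := by simp
    have h3 : 0 < w (MvPolynomial.aeval x F) := w.pos_iff.2 hFx'
    have h4 : Real.log (w (MvPolynomial.aeval x F)) ≤ Real.log Lf + d * Real.log (⨆ j, w (x j)) := by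
      rw [← Real.log_pow, ← Real.log_mul hLf0.ne' (pow_pos h1 _).ne']
      exact Real.log_le_log h3 (arch_eval w F hF x)
    have ht' : (0 : ℝ) < t := by exact_mod_cast Nat.pos_of_ne_zero ht0
    have h5 : w (MvPolynomial.aeval x (divi F)) = (t : ℝ) ^ k * w (MvPolynomial.aeval x F) := by
      rw [hB]
      have : w (-((t : L) ^ k * MvPolynomial.aeval x F)) = w ((t : L) ^ k * MvPolynomial.aeval x F) :=
        w.1.map_neg _
      rw [this, map_mul, map_pow, h2]
    rw [h5, Real.log_div (pow_pos h1 _).ne' (mul_pos (pow_pos ht' _) h3).ne', Real.log_mul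
      (pow_pos ht' _).ne' h3.ne', Real.log_pow, Real.log_pow]
    push_cast
    linarith
  -- sums
  have hLam : Lam U (t : L) = 0 := by
    refine Lam_eq_zero U htL fun v hv => ?_
    rw [hU, Set.Finite.mem_toFinset] at hv
    rw [ht, Nat.cast_pow, map_pow, fv_eq_one hq v hv, one_pow]
  have hLam2 : ∑ v ∈ U, Real.log (fv v (t : L)) = -((Height.totalWeight L : ℝ) * Real.log t) := by
    unfold Lam at hLam
    have h1 : ∑ w : InfinitePlace L, (w.mult : ℝ) * Real.log (w (t : L)) =
        (Height.totalWeight L : ℝ) * Real.log t := by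
      have : ∀ w : InfinitePlace L, w (t : L) = t := fun w => by simp
      simp only [this]
      rw [← Finset.sum_mul, sum_mult]
    linarith
  have hht : Height.logHeight x ≤ LamSup U x :=
    logHeight_le_LamSup U x (pnt_ne a b) fun v j => pnt_fv a b v j
  have hht2 : LamSup U x = ∑ w : InfinitePlace L, (w.mult : ℝ) * Real.log (⨆ j, w (x j)) := by
    unfold LamSup
    rw [Finset.sum_eq_zero (s := U), add_zero]
    intro v _
    have h1 : ⨆ j, fv v (x j) = 1 := pnt_sup a b v
    rw [h1, Real.log_one]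
  have s1 : ∑ w : InfinitePlace L, (w.mult : ℝ) * (3 * Real.log (⨆ j, w (x j)) - k * Real.log t -
      Real.log Lf) ≤ ∑ w : InfinitePlace L, (w.mult : ℝ) *
        Real.log ((⨆ j, w (x j)) ^ (d + 3) / w (MvPolynomial.aeval x (divi F))) :=
    Finset.sum_le_sum fun w _ => mul_le_mul_of_nonneg_left (hinf w) (Nat.cast_nonneg _)
  have s2 : ∑ v ∈ U, -((k : ℝ) + 1) * Real.log (fv v (t : L)) ≤
      ∑ v ∈ U, Real.log ((⨆ j, fv v (x j)) ^ (d + 3) / fv v (MvPolynomial.aeval x (divi F))) :=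
    Finset.sum_le_sum fun v _ => hfin v
  rw [← Finset.mul_sum, hLam2] at s2
  have s3 : ∑ w : InfinitePlace L, (w.mult : ℝ) * (3 * Real.log (⨆ j, w (x j)) - k * Real.log t -
      Real.log Lf) = 3 * LamSup U x - (Height.totalWeight L : ℝ) * (k * Real.log t + Real.log Lf) := by
    rw [hht2, ← sum_mult, Finset.sum_mul, Finset.mul_sum, ← Finset.sum_sub_distrib]
    exact Finset.sum_congr rfl fun w _ => by ring
  rw [s3] at s1
  nlinarith [s1, s2, hht]

end Pool.Agent.X323.BD
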